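import Mathlib
import Pool.Agent.L0h53.RK.Lin
import Pool.Agent.L0h53.RK.Struct

set_option autoImplicit false

/-! Linear algebra: restriction of scalars from a number field to the rational numbers. -/

namespace Pool.Agent.L0h53.RA

open Finset Module Pool.Agent.L0h53.RK

section field

variable {E : Type} [Field E] [NumberField E] (ψ : E →ₐ[ℚ] ℂ)

/-- vectors over a number field which are linearly independent are linearly independent over the
complex numbers -/
theorem cast_liE {k d : ℕ} (v : Fin k → Fin d → E) (hv : LinearIndependent E v) :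
    LinearIndependent ℂ (fun n (i : Fin d) => ψ (v n i)) := by
  let _ : Algebra E ℂ := (ψ : E →+* ℂ).toAlgebra
  rw [Fintype.linearIndependent_iff] at hv ⊢
  intro g hg n
  rw [← Module.forall_dual_apply_eq_zero_iff E (g n)]
  intro f
  refine hv (fun n => f (g n)) ?_ n
  funext i
  have h2 := congrFun hg i
  rw [Finset.sum_apply] at h2 ⊢
  simp only [Pi.smul_apply, smul_eq_mul, Pi.zero_apply] at h2 ⊢
  have h3 := congrArg f h2
  rw [map_sum, map_zero] at h3
  rw [← h3]
  refine Finset.sum_congr rfl fun n _ => ?_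
  have h4 : g n * ψ (v n i) = (v n i) • g n := by
    rw [Algebra.smul_def]
    exact mul_comm _ _
  rw [h4, map_smul, smul_eq_mul, mul_comm]

/-- the vectors over the number field in a complex space -/
def descend {d : ℕ} (V : Submodule ℂ (Fin d → ℂ)) : Submodule E (Fin d → E) where
  carrier := {v | (fun i => ψ (v i)) ∈ V}
  zero_mem' := by
    have : (fun _ : Fin d => ψ (0 : E)) = 0 := by funext i; simp
    change (fun i => ψ ((0 : Fin d → E) i)) ∈ V
    simp only [Pi.zero_apply, this]
    exact V.zero_mem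
  add_mem' := by
    intro a b ha hb
    have := V.add_mem ha hb
    change (fun i => ψ ((a + b) i)) ∈ V
    convert this using 1
    funext i
    simp
  smul_mem' := by
    intro c a ha
    have := V.smul_mem (ψ c) ha
    change (fun i => ψ ((c • a) i)) ∈ V
    convert this using 1
    funext i
    simp

theorem descend_le {d : ℕ} (V : Submodule ℂ (Fin d → ℂ)) :
    finrank E (descend ψ V) ≤ finrank ℂ V := by
  obtain ⟨f, hf⟩ := exists_linearIndependent_of_le_finrank (R := E) (M := descend ψ V) le_rfl
  have h1 : LinearIndependent E (fun n => ((f n : descend ψ V) : Fin d → E)) :=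
    hf.map' (descend ψ V).subtype (Submodule.ker_subtype _)
  have h2 := cast_liE ψ _ h1
  have h3 : LinearIndependent ℂ (fun n => (⟨fun i => ψ (((f n : descend ψ V) : Fin d → E) i),
      (f n).2⟩ : V)) := by
    apply LinearIndependent.of_comp V.subtype
    exact h2
  have := h3.fintype_card_le_finrank
  rwa [Fintype.card_fin] at this

end field

section basis

variable {E : Type} [Field E] [NumberField E] (ψ : E →ₐ[ℚ] ℂ) {m : ℕ} (ω : Fin (m + 1) → E)

/-- the linear forms given by a basis of the number field -/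
noncomputable def ph (d : ℕ) : (Fin (d * (m + 1)) → ℂ) →ₗ[ℂ] (Fin d → ℂ) where
  toFun x j := ∑ h, ψ (ω h) * x (finProdFinEquiv (j, h))
  map_add' x y := by funext j; simp [mul_add, Finset.sum_add_distrib]
  map_smul' c x := by
    funext j
    simp only [Pi.smul_apply, smul_eq_mul, RingHom.id_apply, Finset.mul_sum]
    exact Finset.sum_congr rfl fun _ _ => by ring

/-- the transpose -/
noncomputable def phT (d : ℕ) : (Fin d → ℂ) →ₗ[ℂ] (Fin (d * (m + 1)) → ℂ) where
  toFun u J := ψ (ω (finProdFinEquiv.symm J).2) * u (finProdFinEquiv.symm J).1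
  map_add' x y := by funext j; simp [mul_add]
  map_smul' c x := by
    funext j
    simp only [Pi.smul_apply, smul_eq_mul, RingHom.id_apply]
    ring

theorem ph_apply {d : ℕ} (x : Fin (d * (m + 1)) → ℂ) (j : Fin d) :
    ph ψ ω d x j = ∑ h, ψ (ω h) * x (finProdFinEquiv (j, h)) := rfl

theorem phT_apply {d : ℕ} (u : Fin d → ℂ) (j : Fin d) (h : Fin (m + 1)) :
    phT ψ ω d u (finProdFinEquiv (j, h)) = ψ (ω h) * u j := by
  change ψ (ω (finProdFinEquiv.symm (finProdFinEquiv (j, h))).2) *
    u (finProdFinEquiv.symm (finProdFinEquiv (j, h))).1 = _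
  rw [Equiv.symm_apply_apply]

/-- sums over the double index -/
theorem sum_dbl {d k : ℕ} {M : Type} [AddCommMonoid M] (f : Fin (d * k) → M) :
    ∑ J, f J = ∑ j : Fin d, ∑ h : Fin k, f (finProdFinEquiv (j, h)) := by
  rw [← Fintype.sum_prod_type']
  exact (Equiv.sum_comp finProdFinEquiv f).symm

theorem adj {d : ℕ} (u : Fin d → ℂ) (x : Fin (d * (m + 1)) → ℂ) :
    ∑ J, phT ψ ω d u J * x J = ∑ j, u j * ph ψ ω d x j := by
  rw [sum_dbl]
  refine Finset.sum_congr rfl fun j _ => ?_
  rw [ph_apply, Finset.mul_sum]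
  refine Finset.sum_congr rfl fun h _ => ?_
  rw [phT_apply]
  ring

variable {ω}

/-- **The rank of a group of integral vectors is at most the degree times the dimension of the space
of its images.** -/
theorem rank_le_mul (hω : LinearIndependent ℚ ω) (hm : finrank ℚ E = m + 1) {d : ℕ}
    (S : AddSubgroup (Fin (d * (m + 1)) → ℤ)) (V : Submodule ℂ (Fin d → ℂ))
    (h : ∀ s ∈ S, ph ψ ω d (vc s) ∈ V) : finrank ℤ S ≤ (m + 1) * finrank ℂ V := by
  obtain ⟨f, hf⟩ := exists_linearIndependent_of_le_finrank (R := ℤ) (M := S) le_rfl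
  have h1 : LinearIndependent ℤ (fun n => ((f n : S) : Fin (d * (m + 1)) → ℤ)) := by
    have hk : LinearMap.ker (S.subtype.toIntLinearMap) = ⊥ := by
      rw [LinearMap.ker_eq_bot]
      exact Subtype.val_injective
    exact hf.map' _ hk
  -- the map to `E ^ d`
  let P : (Fin (d * (m + 1)) → ℤ) →ₗ[ℤ] (Fin d → E) :=
    { toFun := fun s j => ∑ h, ω h * ((s (finProdFinEquiv (j, h)) : ℤ) : E)
      map_add' := fun x y => by
        funext j
        simp [mul_add, Finset.sum_add_distrib]
      map_smul' := fun c x => by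
        funext j
        simp only [Pi.smul_apply, smul_eq_mul, Int.cast_mul, RingHom.id_apply, zsmul_eq_mul,
          Finset.mul_sum]
        exact Finset.sum_congr rfl fun _ _ => by ring }
  have hP : LinearMap.ker P = ⊥ := by
    rw [LinearMap.ker_eq_bot']
    intro s hs
    funext J
    obtain ⟨⟨j, h⟩, rfl⟩ := finProdFinEquiv.surjective J
    have h2 : ∑ h, ((s (finProdFinEquiv (j, h)) : ℤ) : ℚ) • ω h = 0 := by
      have h3 := congrFun hs j
      change ∑ h, ω h * ((s (finProdFinEquiv (j, h)) : ℤ) : E) = 0 at h3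
      rw [← h3]
      refine Finset.sum_congr rfl fun h _ => ?_
      rw [Algebra.smul_def]
      simp [mul_comm]
    have h4 := (Fintype.linearIndependent_iff.mp hω) _ h2 h
    exact_mod_cast h4
  have h2 : LinearIndependent ℤ (fun n => P ((f n : S) : Fin (d * (m + 1)) → ℤ)) := h1.map' P hP
  have h3 : LinearIndependent ℚ (fun n => P ((f n : S) : Fin (d * (m + 1)) → ℤ)) :=
    (LinearIndependent.iff_fractionRing ℤ ℚ).mp h2
  have hmem : ∀ s ∈ S, P s ∈ descend ψ V := by
    intro s hs
    change (fun j => ψ (∑ h, ω h * ((s (finProdFinEquiv (j, h)) : ℤ) : E))) ∈ V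
    have := h s hs
    convert this using 1
    funext j
    rw [ph_apply, map_sum]
    refine Finset.sum_congr rfl fun h _ => ?_
    rw [map_mul, map_intCast]
    rfl
  have h4 : LinearIndependent ℚ (fun n => (⟨P ((f n : S) : Fin (d * (m + 1)) → ℤ),
      hmem _ (f n).2⟩ : descend ψ V)) := by
    apply LinearIndependent.of_comp ((descend ψ V).subtype.restrictScalars ℚ)
    exact h3
  have : Module.Finite ℚ (descend ψ V) := Module.Finite.trans E _
  have h5 := h4.fintype_card_le_finrank
  rw [Fintype.card_fin] at h5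
  refine h5.trans ?_
  rw [← Module.finrank_mul_finrank ℚ E (descend ψ V), hm]
  exact Nat.mul_le_mul_left _ (descend_le ψ V)

/-- the orthogonal group -/
def orth {b : ℕ} (Rm : AddSubgroup (Fin b → ℤ)) : Submodule ℤ (Fin b → ℤ) where
  carrier := {y | ∀ m ∈ Rm, ∑ J, m J * y J = 0}
  zero_mem' := by intro m _; simp
  add_mem' := by
    intro x y hx hy m hm
    simp only [Pi.add_apply, mul_add, Finset.sum_add_distrib, hx m hm, hy m hm, add_zero]
  smul_mem' := by
    intro c x hx m hm
    simp only [Pi.smul_apply, smul_eq_mul]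
    have : ∑ J, m J * (c * x J) = c * ∑ J, m J * x J := by
      rw [Finset.mul_sum]
      exact Finset.sum_congr rfl fun _ _ => by ring
    rw [this, hx m hm, mul_zero]

theorem orth_rank {b : ℕ} (Rm : AddSubgroup (Fin b → ℤ)) :
    b ≤ finrank ℤ Rm + finrank ℤ (orth Rm) := by
  let S : Submodule ℤ (Fin b → ℤ) := AddSubgroup.toIntSubmodule Rm
  let B := Module.finBasis ℤ S
  let T : (Fin b → ℤ) →ₗ[ℤ] (Fin (finrank ℤ S) → ℤ) :=
    { toFun := fun y k => ∑ J, ((B k : S) : Fin b → ℤ) J * y J
      map_add' := fun x y => by funext k; simp [mul_add, Finset.sum_add_distrib]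
      map_smul' := fun c x => by
        funext k
        simp only [Pi.smul_apply, smul_eq_mul, RingHom.id_apply, Finset.mul_sum]
        exact Finset.sum_congr rfl fun _ _ => by ring }
  have hk : LinearMap.ker T ≤ orth Rm := by
    intro y hy m hm
    have hy' : ∀ k, ∑ J, ((B k : S) : Fin b → ℤ) J * y J = 0 := fun k => congrFun hy k
    have hm' : (m : Fin b → ℤ) ∈ S := hm
    have h1 := congrArg (fun x : S => (x : Fin b → ℤ)) (B.sum_repr ⟨m, hm'⟩)
    simp only [Submodule.coe_sum, Submodule.coe_smul] at h1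
    have h2 : ∀ J, m J = ∑ k, (B.repr ⟨m, hm'⟩) k * ((B k : S) : Fin b → ℤ) J := by
      intro J
      rw [← congrFun h1 J]
      simp
    calc ∑ J, m J * y J = ∑ J, ∑ k, (B.repr ⟨m, hm'⟩) k * (((B k : S) : Fin b → ℤ) J * y J) := by
          refine Finset.sum_congr rfl fun J _ => ?_
          rw [h2 J, Finset.sum_mul]
          exact Finset.sum_congr rfl fun _ _ => by ring
      _ = ∑ k, (B.repr ⟨m, hm'⟩) k * ∑ J, ((B k : S) : Fin b → ℤ) J * y J := by
          rw [Finset.sum_comm]
          exact Finset.sum_congr rfl fun _ _ => by rw [Finset.mul_sum]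
      _ = 0 := Finset.sum_eq_zero fun k _ => by rw [hy' k, mul_zero]
  have h1 : finrank ℤ (LinearMap.range T) + finrank ℤ (LinearMap.ker T) = b := by
    have h0 := LinearMap.rank_range_add_rank_ker T
    rw [← Module.finrank_eq_rank ℤ (LinearMap.range T), ← Module.finrank_eq_rank ℤ (LinearMap.ker T),
      ← Module.finrank_eq_rank ℤ (Fin b → ℤ), Module.finrank_fin_fun] at h0
    exact_mod_cast h0
  have h2 : finrank ℤ (LinearMap.range T) ≤ finrank ℤ S := by
    have := LinearMap.finrank_range_le T
    have h3 : finrank ℤ (LinearMap.range T) ≤ finrank ℤ (Fin (finrank ℤ S) → ℤ) :=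
      Submodule.finrank_le _
    rwa [Module.finrank_fin_fun] at h3
  have h3 : finrank ℤ (LinearMap.ker T) ≤ finrank ℤ (orth Rm) := Submodule.finrank_mono hk
  have h4 : finrank ℤ S = finrank ℤ Rm := rfl
  omega

/-- the space of the linear forms with coefficients in the number field -/
noncomputable def sp (d : ℕ) (Rm : AddSubgroup (Fin (d * (m + 1)) → ℤ)) (ω : Fin (m + 1) → E) :
    Submodule ℂ (Fin d → ℂ) :=
  (Submodule.span ℂ (vc '' (Rm : Set (Fin (d * (m + 1)) → ℤ)))).comap (phT ψ ω d)

theorem sp_rank (hω : LinearIndependent ℚ ω) (hm : finrank ℚ E = m + 1) {d : ℕ}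
    (Rm : AddSubgroup (Fin (d * (m + 1)) → ℤ)) :
    (m + 1) * finrank ℂ (sp ψ d Rm ω) ≤ finrank ℤ Rm := by
  let Y : AddSubgroup (Fin (d * (m + 1)) → ℤ) := (orth Rm).toAddSubgroup
  let V : Submodule ℂ (Fin d → ℂ) :=
    Submodule.span ℂ ((fun y => ph ψ ω d (vc y)) '' (Y : Set (Fin (d * (m + 1)) → ℤ)))
  have h1 := rank_le_mul ψ hω hm Y V fun s hs => Submodule.subset_span ⟨s, hs, rfl⟩
  have h1' : finrank ℤ Y = finrank ℤ (orth Rm) := rfl
  have h2 := orth_rank Rm
  have h3 : finrank ℂ (sp ψ d Rm ω) + finrank ℂ V ≤ d := by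
    apply pair_le
    intro u hu
    -- the vectors orthogonal to `u`
    let f : (Fin d → ℂ) →ₗ[ℂ] ℂ :=
      { toFun := fun c => ∑ i, u i * c i
        map_add' := fun x y => by simp [mul_add, Finset.sum_add_distrib]
        map_smul' := fun b x => by
          simp only [Pi.smul_apply, smul_eq_mul, RingHom.id_apply, Finset.mul_sum]
          exact Finset.sum_congr rfl fun _ _ => by ring }
    have hV : V ≤ LinearMap.ker f := by
      rw [Submodule.span_le]
      rintro _ ⟨y, hy, rfl⟩
      change ∑ j, u j * ph ψ ω d (vc y) j = 0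
      rw [← adj]
      have hy' : ∀ m ∈ Rm, ∑ J, m J * y J = 0 := hy
      let g : (Fin (d * (m + 1)) → ℂ) →ₗ[ℂ] ℂ :=
        { toFun := fun c => ∑ i, c i * vc y i
          map_add' := fun x y => by simp [add_mul, Finset.sum_add_distrib]
          map_smul' := fun b x => by
            simp only [Pi.smul_apply, smul_eq_mul, RingHom.id_apply, Finset.mul_sum]
            exact Finset.sum_congr rfl fun _ _ => by ring }
      have hR : Submodule.span ℂ (vc '' (Rm : Set (Fin (d * (m + 1)) → ℤ))) ≤
          LinearMap.ker g := by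
        rw [Submodule.span_le]
        rintro _ ⟨m, hm, rfl⟩
        change ∑ i, vc m i * vc y i = 0
        have h5 := hy' m hm
        have h6 : ((∑ J, m J * y J : ℤ) : ℂ) = 0 := by rw [h5, Int.cast_zero]
        push_cast at h6
        exact h6
      exact hR hu
    intro c hc
    exact hV hc
  rw [h1'] at h1
  have h4 : (m + 1) * (finrank ℂ (sp ψ d Rm ω) + finrank ℂ V) ≤ (m + 1) * d :=
    Nat.mul_le_mul_left _ h3
  have h5 : (m + 1) * d = d * (m + 1) := mul_comm _ _
  rw [Nat.mul_add] at h4
  omega

end basis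

end Pool.Agent.L0h53.RA
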