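import Mathlib
import Pool.Agent.L0h53.RA.Lin

set_option autoImplicit false

/-! Matrices over a number field as matrices over the integers. -/

namespace Pool.Agent.L0h53.RA

open Finset Module Pool.Agent.L0h53.RK

/-- the entries of the matrix -/
noncomputable def zr {K : Type} [Field K] {n b l : ℕ} (A : Fin n → Fin b → Fin l → ℤ) (z : Fin n → K)
    (j : Fin b) (p : Fin l) : K := ∏ i, z i ^ A i j p

/-- a relation for the matrix is a relation for the numbers -/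
theorem rel_zr {K : Type} [Field K] {n b l : ℕ} (A : Fin n → Fin b → Fin l → ℤ) (z : Fin n → K)
    (hz : ∀ i, z i ≠ 0) (m : Fin b → ℤ) (s : Fin l → ℤ) :
    ∏ j, (∏ p, zr A z j p ^ s p) ^ m j = ∏ i, z i ^ (∑ j, ∑ p, m j * s p * A i j p) := by
  unfold zr
  have h1 : ∀ j p, (∏ i, z i ^ A i j p) ^ s p = ∏ i, z i ^ (A i j p * s p) := by
    intro j p
    rw [← Finset.prod_zpow]
    exact Finset.prod_congr rfl fun i _ => (zpow_mul _ _ _).symm
  have h2 : ∀ j, (∏ p, (∏ i, z i ^ A i j p) ^ s p) ^ m j =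
      ∏ i, z i ^ (∑ p, m j * s p * A i j p) := by
    intro j
    simp only [h1]
    rw [Finset.prod_comm, ← Finset.prod_zpow]
    refine Finset.prod_congr rfl fun i _ => ?_
    rw [← Finset.prod_zpow]
    rw [rel_zm.zpow_sum_eq (hz i)]
    refine Finset.prod_congr rfl fun p _ => ?_
    rw [← zpow_mul]
    congr 1
    ring
  simp only [h2]
  rw [Finset.prod_comm]
  refine Finset.prod_congr rfl fun i _ => ?_
  rw [rel_zm.zpow_sum_eq (hz i)]

theorem exists_sizeR {n b l : ℕ} (A : Fin n → Fin b → Fin l → ℤ) :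
    ∃ m : ℕ, 1 ≤ m ∧ ∀ j p, ∑ i, (A i j p).natAbs ≤ m := by
  refine ⟨1 + ∑ j, ∑ p, ∑ i, (A i j p).natAbs, by omega, fun j p => ?_⟩
  have h1 : ∑ i, (A i j p).natAbs ≤ ∑ p, ∑ i, (A i j p).natAbs :=
    Finset.single_le_sum (f := fun p => ∑ i, (A i j p).natAbs) (fun _ _ => Nat.zero_le _)
      (Finset.mem_univ p)
  have h2 : ∑ p, ∑ i, (A i j p).natAbs ≤ ∑ j, ∑ p, ∑ i, (A i j p).natAbs :=
    Finset.single_le_sum (f := fun j => ∑ p, ∑ i, (A i j p).natAbs) (fun _ _ => Nat.zero_le _)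
      (Finset.mem_univ j)
  omega

section entries

variable {K : Type} [Field K] [NumberField K] {n b l : ℕ} {A : Fin n → Fin b → Fin l → ℤ}
  {z : Fin n → K} {H : ℝ}

theorem zr_ne (hz : ∀ i, z i ≠ 0) (j : Fin b) (p : Fin l) : zr A z j p ≠ 0 :=
  Finset.prod_ne_zero_iff.mpr fun i _ => zpow_ne_zero _ (hz i)

theorem zr_ht (hH : 1 ≤ H) {m : ℕ} (hm : ∀ j p, ∑ i, (A i j p).natAbs ≤ m)
    (hz : ∀ i, Ht H (z i)) (hz' : ∀ i, Ht H (z i)⁻¹) (j : Fin b) (p : Fin l) :
    Ht (H ^ m) (zr A z j p) :=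
  ht_mono (pow_le_pow_right₀ hH (hm j p)) (ht_prod hH Finset.univ z (fun i => A i j p)
    (fun i _ => hz i) fun i _ => hz' i)

theorem zr_exp (φ : K →ₐ[ℚ] ℂ) {lam : Fin n → ℂ} (h : ∀ i, Complex.exp (lam i) = φ (z i))
    (j : Fin b) (p : Fin l) : Complex.exp (∑ i, (A i j p : ℂ) * lam i) = φ (zr A z j p) := by
  unfold zr
  rw [Complex.exp_sum, map_prod]
  refine Finset.prod_congr rfl fun i _ => ?_
  rw [Complex.exp_int_mul, h, map_zpow₀]

theorem zr_size {m : ℕ} (hm : ∀ j p, ∑ i, (A i j p).natAbs ≤ m) {c0 : ℝ} (hc0 : 0 ≤ c0)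
    (hH : 1 ≤ H) {lam : Fin n → ℂ} (h : ∀ i, ‖lam i‖ ≤ c0 * Real.log H) (j : Fin b) (p : Fin l) :
    ‖∑ i, (A i j p : ℂ) * lam i‖ ≤ c0 * Real.log (H ^ m) := by
  have hlog : 0 ≤ Real.log H := Real.log_nonneg hH
  calc ‖∑ i, (A i j p : ℂ) * lam i‖ ≤ ∑ i, ‖(A i j p : ℂ) * lam i‖ := norm_sum_le _ _
    _ ≤ ∑ i, ((A i j p).natAbs : ℝ) * (c0 * Real.log H) := by
        refine Finset.sum_le_sum fun i _ => ?_
        rw [norm_mul]
        have e : ‖(A i j p : ℂ)‖ = ((A i j p).natAbs : ℝ) := by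
          rw [Complex.norm_intCast, Nat.cast_natAbs, Int.cast_abs]
        rw [e]
        exact mul_le_mul_of_nonneg_left (h i) (Nat.cast_nonneg _)
    _ = ((∑ i, (A i j p).natAbs : ℕ) : ℝ) * (c0 * Real.log H) := by
        rw [← Finset.sum_mul]; push_cast; ring
    _ ≤ (m : ℝ) * (c0 * Real.log H) := by
        apply mul_le_mul_of_nonneg_right _ (by positivity)
        exact_mod_cast hm j p
    _ = _ := by rw [Real.log_pow]; ring

end entries

section basis

variable (E : Type) [Field E] [NumberField E]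

/-- a basis of a number field which consists of integral elements and contains `1` -/
theorem exists_basis : ∃ (m : ℕ) (ω : Fin (m + 1) → E), finrank ℚ E = m + 1 ∧
    LinearIndependent ℚ ω ∧ ω 0 = 1 ∧ ∀ h, IsIntegral ℤ (ω h) := by
  let pb := Field.powerBasisOfFiniteOfSeparable ℚ E
  obtain ⟨c, hc0, hc⟩ : ∃ c : ℤ, c ≠ 0 ∧ IsIntegral ℤ ((c : E) * pb.gen) := by
    have halg : IsAlgebraic ℤ pb.gen := by
      have : IsAlgebraic ℚ pb.gen := Algebra.IsAlgebraic.isAlgebraic _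
      exact (IsFractionRing.isAlgebraic_iff ℤ ℚ E).mpr this
    obtain ⟨y, hy, hyi⟩ := halg.exists_integral_multiple
    exact ⟨y, hy, by simpa [zsmul_eq_mul] using hyi⟩
  have hdim : 0 < pb.dim := pb.dim_pos
  obtain ⟨m, hm⟩ : ∃ m, pb.dim = m + 1 := ⟨pb.dim - 1, by omega⟩
  have hfin : finrank ℚ E = m + 1 := by rw [pb.finrank, hm]
  have hcE : (c : E) ≠ 0 := by exact_mod_cast hc0
  refine ⟨m, fun h => ((c : E) * pb.gen) ^ (h : ℕ), hfin, ?_, by simp, fun h => hc.pow _⟩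
  have h1 : LinearIndependent ℚ (fun i : Fin pb.dim => pb.gen ^ (i : ℕ)) := by
    have h0 := pb.basis.linearIndependent
    have e : (fun i : Fin pb.dim => pb.gen ^ (i : ℕ)) = pb.basis := by
      funext i
      rw [pb.basis_eq_pow]
    rw [e]
    exact h0
  have h2 : LinearIndependent ℚ (fun h : Fin (m + 1) => pb.gen ^ (h : ℕ)) := by
    have h0 := h1.comp (Fin.cast hm.symm) (Fin.cast_injective _)
    exact h0
  have h3 := h2.units_smul (fun h : Fin (m + 1) => Units.mk0 ((c : ℚ) ^ (h : ℕ)) (by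
    apply pow_ne_zero
    exact_mod_cast hc0))
  convert h3 using 1
  funext h
  simp only [Pi.smul_apply', Units.smul_mk0]
  rw [mul_pow, Algebra.smul_def]
  simp

end basis

/-- common denominators -/
theorem common_den {ι : Type} [Fintype ι] (f : ι → ℚ) :
    ∃ q : ℕ, 0 < q ∧ ∀ i, ∃ z : ℤ, (q : ℚ) * f i = z := by
  classical
  refine ⟨∏ i, (f i).den, Finset.prod_pos fun i _ => (f i).den_pos, fun i => ?_⟩
  obtain ⟨k, hk⟩ := Finset.dvd_prod_of_mem (fun i => (f i).den) (Finset.mem_univ i)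
  refine ⟨(f i).num * k, ?_⟩
  rw [hk]
  push_cast
  have h1 : ((f i).den : ℚ) * f i = (f i).num := Rat.den_mul_eq_num _
  calc ((f i).den : ℚ) * k * f i = (((f i).den : ℚ) * f i) * k := by ring
    _ = _ := by rw [h1]

section mat

variable {E : Type} [Field E] [NumberField E] {m : ℕ} {ω : Fin (m + 1) → E}

/-- the integral matrices -/
theorem exists_mat (hω : LinearIndependent ℚ ω) (hm : finrank ℚ E = m + 1)
    (hωI : ∀ h, IsIntegral ℤ (ω h)) {n d l : ℕ} (M : Fin n → Fin d → Fin l → E)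
    (M₀ : Fin d → Fin l → E) : ∃ (q : ℕ) (c : Fin n → Fin d → Fin l → Fin (m + 1) → Fin (m + 1) → ℤ),
      0 < q ∧ (∀ i j p h', ∑ h, (c i j p h' h : E) * ω h = (q : E) * (M i j p * ω h')) ∧
      ∀ j p, IsIntegral ℤ ((q : E) * M₀ j p) := by
  classical
  let B : Basis (Fin (m + 1)) ℚ E := basisOfLinearIndependentOfCardEqFinrank hω (by simp [hm])
  have hB : ∀ h, B h = ω h := fun h => by
    change (basisOfLinearIndependentOfCardEqFinrank hω _) h = ω h
    rw [coe_basisOfLinearIndependentOfCardEqFinrank]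
  have hrep : ∀ x : E, x = ∑ h, (B.repr x h : E) * ω h := by
    intro x
    conv_lhs => rw [← B.sum_repr x]
    refine Finset.sum_congr rfl fun h _ => ?_
    rw [Algebra.smul_def, hB]
    rfl
  obtain ⟨q1, hq1, hz1⟩ := common_den (fun t : Fin n × Fin d × Fin l × Fin (m + 1) × Fin (m + 1) =>
    B.repr (M t.1 t.2.1 t.2.2.1 * ω t.2.2.2.1) t.2.2.2.2)
  obtain ⟨q2, hq2, hz2⟩ := common_den (fun t : Fin d × Fin l × Fin (m + 1) =>
    B.repr (M₀ t.1 t.2.1) t.2.2)
  choose c1 hc1 using hz1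
  choose c2 hc2 using hz2
  refine ⟨q2 * q1, fun i j p h' h => q2 * c1 (i, j, p, h', h), Nat.mul_pos hq2 hq1, ?_, ?_⟩
  · intro i j p h'
    conv_rhs => rw [hrep (M i j p * ω h'), Finset.mul_sum]
    refine Finset.sum_congr rfl fun h _ => ?_
    have h1 := congrArg (fun x : ℚ => (x : E)) (hc1 (i, j, p, h', h))
    simp only at h1
    push_cast at h1 ⊢
    rw [← h1]
    ring
  · intro j p
    rw [hrep (M₀ j p), Finset.mul_sum]
    apply IsIntegral.sum
    intro h _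
    have h1 := congrArg (fun x : ℚ => (x : E)) (hc2 (j, p, h))
    simp only at h1
    have e : ((q2 * q1 : ℕ) : E) * ((B.repr (M₀ j p) h : E) * ω h) =
        (q1 : E) * ((c2 (j, p, h) : ℤ) : E) * ω h := by
      push_cast at h1 ⊢
      rw [← h1]
      ring
    rw [e]
    exact ((isIntegral_natCast q1).mul (isIntegral_intCast _)).mul (hωI h)

variable (ψ : E →ₐ[ℚ] ℂ)

/-- the matrix with double indices -/
def Am {n d l : ℕ} (c : Fin n → Fin d → Fin l → Fin (m + 1) → Fin (m + 1) → ℤ) (i : Fin n)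
    (J : Fin (d * (m + 1))) (P : Fin (l * (m + 1))) : ℤ :=
  c i (finProdFinEquiv.symm J).1 (finProdFinEquiv.symm P).1 (finProdFinEquiv.symm P).2
    (finProdFinEquiv.symm J).2

theorem Am_apply {n d l : ℕ} (c : Fin n → Fin d → Fin l → Fin (m + 1) → Fin (m + 1) → ℤ)
    (i : Fin n) (j : Fin d) (h : Fin (m + 1)) (p : Fin l) (h' : Fin (m + 1)) :
    Am c i (finProdFinEquiv (j, h)) (finProdFinEquiv (p, h')) = c i j p h' h := by
  unfold Am
  rw [Equiv.symm_apply_apply, Equiv.symm_apply_apply]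

theorem ph_Am {n d l : ℕ} {q : ℕ} {M : Fin n → Fin d → Fin l → E}
    {c : Fin n → Fin d → Fin l → Fin (m + 1) → Fin (m + 1) → ℤ}
    (hc : ∀ i j p h', ∑ h, (c i j p h' h : E) * ω h = (q : E) * (M i j p * ω h'))
    (i : Fin n) (s : Fin (l * (m + 1)) → ℂ) (j : Fin d) :
    ph ψ ω d (fun J => ∑ P, (Am c i J P : ℂ) * s P) j =
      (q : ℂ) * ∑ p, ψ (M i j p) * ph ψ ω l s p := by
  rw [ph_apply]
  have h1 : ∀ h, ψ (ω h) * ∑ P, (Am c i (finProdFinEquiv (j, h)) P : ℂ) * s P =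
      ∑ p, ∑ h', ψ (ω h) * ((c i j p h' h : ℤ) : ℂ) * s (finProdFinEquiv (p, h')) := by
    intro h
    rw [sum_dbl, Finset.mul_sum]
    refine Finset.sum_congr rfl fun p _ => ?_
    rw [Finset.mul_sum]
    refine Finset.sum_congr rfl fun h' _ => ?_
    rw [Am_apply]
    ring
  simp only [h1]
  rw [Finset.sum_comm, Finset.mul_sum]
  refine Finset.sum_congr rfl fun p _ => ?_
  rw [Finset.sum_comm, ph_apply, Finset.mul_sum, Finset.mul_sum]
  refine Finset.sum_congr rfl fun h' _ => ?_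
  have h2 := congrArg ψ (hc i j p h')
  rw [map_sum] at h2
  simp only [map_mul, map_intCast, map_natCast] at h2
  have h3 : ∑ h, ψ (ω h) * ((c i j p h' h : ℤ) : ℂ) * s (finProdFinEquiv (p, h')) =
      (∑ h, ((c i j p h' h : ℤ) : ℂ) * ψ (ω h)) * s (finProdFinEquiv (p, h')) := by
    rw [Finset.sum_mul]
    exact Finset.sum_congr rfl fun _ _ => by ring
  rw [h3, h2]
  ring

/-- **The block of zeros.** -/
theorem block {n d l : ℕ} {q : ℕ} (hq : 0 < q) {M : Fin n → Fin d → Fin l → E}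
    {c : Fin n → Fin d → Fin l → Fin (m + 1) → Fin (m + 1) → ℤ}
    (hc : ∀ i j p h', ∑ h, (c i j p h' h : E) * ω h = (q : E) * (M i j p * ω h'))
    (Rm : AddSubgroup (Fin (d * (m + 1)) → ℤ)) (s : Fin (l * (m + 1)) → ℤ) (i : Fin n)
    (h0 : ∀ m' ∈ Rm, ∑ J, ∑ P, m' J * s P * Am c i J P = 0) (u : Fin d → ℂ)
    (hu : u ∈ sp ψ d Rm ω) : ∑ j, ∑ p, u j * ψ (M i j p) * ph ψ ω l (vc s) p = 0 := by
  have h1 : ∑ j, u j * ph ψ ω d (fun J => ∑ P, (Am c i J P : ℂ) * vc s P) j = 0 := by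
    rw [← adj]
    let g : (Fin (d * (m + 1)) → ℂ) →ₗ[ℂ] ℂ :=
      { toFun := fun x => ∑ J, x J * ∑ P, (Am c i J P : ℂ) * vc s P
        map_add' := fun x y => by simp [add_mul, Finset.sum_add_distrib]
        map_smul' := fun b x => by
          simp only [Pi.smul_apply, smul_eq_mul, RingHom.id_apply, Finset.mul_sum]
          exact Finset.sum_congr rfl fun _ _ => Finset.sum_congr rfl fun _ _ => by ring }
    have hR : Submodule.span ℂ (vc '' (Rm : Set (Fin (d * (m + 1)) → ℤ))) ≤ LinearMap.ker g := by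
      rw [Submodule.span_le]
      rintro _ ⟨m', hm', rfl⟩
      change ∑ J, vc m' J * ∑ P, (Am c i J P : ℂ) * vc s P = 0
      have h5 := h0 m' hm'
      have h6 : ((∑ J, ∑ P, m' J * s P * Am c i J P : ℤ) : ℂ) = 0 := by rw [h5, Int.cast_zero]
      push_cast at h6
      rw [← h6]
      refine Finset.sum_congr rfl fun J _ => ?_
      rw [Finset.mul_sum]
      exact Finset.sum_congr rfl fun P _ => by unfold vc; ring
    exact hR hu
  simp only [ph_Am ψ hc] at h1
  have hq' : (q : ℂ) ≠ 0 := by exact_mod_cast hq.ne'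
  have h2 : (q : ℂ) * ∑ j, ∑ p, u j * ψ (M i j p) * ph ψ ω l (vc s) p = 0 := by
    rw [← h1, Finset.mul_sum]
    refine Finset.sum_congr rfl fun j _ => ?_
    rw [Finset.mul_sum, Finset.mul_sum, Finset.mul_sum]
    exact Finset.sum_congr rfl fun p _ => by ring
  exact (mul_eq_zero.mp h2).resolve_left hq'

/-- the size of the conjugates of finitely many elements -/
theorem exists_bd {ι : Type} [Fintype ι] (x : ι → E) :
    ∃ B : ℝ, 0 ≤ B ∧ ∀ (σ : E →ₐ[ℚ] ℂ) (i : ι), ‖σ (x i)‖ ≤ B := by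
  refine ⟨∑ t : (E →ₐ[ℚ] ℂ) × ι, ‖t.1 (x t.2)‖, by positivity, fun σ i => ?_⟩
  exact Finset.single_le_sum (f := fun t : (E →ₐ[ℚ] ℂ) × ι => ‖t.1 (x t.2)‖)
    (fun _ _ => norm_nonneg _) (Finset.mem_univ (σ, i))

end mat

end Pool.Agent.L0h53.RA
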