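import Mathlib
import Pool.Agent.L0h39.QA.ObsA
import Pool.Agent.L0h53.NP.GrowU
import Pool.Agent.L0h53.RA.Aux1

set_option autoImplicit false

/-! The obstruction theorem for points which are only close to the points of an analytic subgroup,
for algebraic directions with algebraic coefficients. -/

namespace Pool.Agent.L0h53.RA

open Finset Module Pool.Agent.H301R2.TR Pool.Agent.H335R2.Obs Pool.Agent.L0h39.QA

/-- **Obstruction theorem, approximate version, with algebraic directions.** -/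
theorem obstructionA {w b l r : ℕ} (A : Finset (Fin w)) (κ μ σ τ a D0 : ℕ) (C0 g : ℝ)
    (hC0 : 0 ≤ C0) (hg0 : 0 ≤ g) (hb : 1 ≤ b) (hl : 1 ≤ l) (hκ : μ + σ = κ)
    (hτ : τ + 1 = κ + a) (ha : 1 ≤ a) (hcount : (κ + a) * (r + w) + 1 ≤ A.card * κ + b * μ) :
    ∃ C1 : ℝ, 0 < C1 ∧ ∃ n0 : ℕ, ∀ n ≥ n0, ∀ (F : Type) [Field F] [NumberField F]
      (φ : F →ₐ[ℚ] ℂ) (γ : Fin w → Fin b → F) (α : Fin w → Fin l → F) (χ : Fin b → Fin l → F)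
      (x : Fin r → Fin b → ℂ)
      (y : Fin r → Fin l → ℂ) (ω : Fin w → Fin l → ℂ) (Λ R ε Cx : ℝ) (d : ℕ),
      1 ≤ Cx → Cx ^ 2 ≤ C0 * Λ → (∀ ρ j, ‖x ρ j‖ ≤ Cx) → (∀ ρ p, ‖y ρ p‖ ≤ Cx) →
      1 + g ≤ Cx ^ 2 → (∀ i p, (1 + g) * ‖ω i p‖ ≤ Cx ^ 2) →
      (∀ i j, IsIntegral ℤ (γ i j)) → (∀ τ' : F →ₐ[ℚ] ℂ, ∀ i j, ‖τ' (γ i j)‖ ≤ g) →
      (∀ i ∉ A, ∀ p, α i p = 0) →
      C1 * Λ ≤ (n : ℝ) ^ a → 1 ≤ Λ → 1 ≤ R → R ≤ Real.exp Λ → 0 < d → (d : ℝ) ≤ Real.exp Λ →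
      finrank ℚ F ≤ D0 → 0 ≤ ε → ε ≤ (1 / 4) ^ (n ^ (κ + a)) →
      (∀ i p, IntD d 1 (α i p)) → (∀ j p, IntD d 1 (χ j p)) →
      (∀ τ' : F →ₐ[ℚ] ℂ, ∀ i p, ‖τ' (α i p)‖ ≤ R) → (∀ τ' : F →ₐ[ℚ] ℂ, ∀ j p, ‖τ' (χ j p)‖ ≤ R) →
      (∀ i ∈ A, ∀ p, ‖ω i p‖ ≤ R) →
      (∀ j p, ‖Complex.exp (∑ ρ, x ρ j * y ρ p + ∑ i, φ (γ i j) * ω i p)‖ ≤ R) →
      (∀ i ∈ A, ∀ p, ‖φ (α i p) - ω i p‖ ≤ ε) →
      (∀ j p, ‖φ (χ j p) -
        Complex.exp (∑ ρ, x ρ j * y ρ p + ∑ i, φ (γ i j) * ω i p)‖ ≤ ε) →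
      (∀ j p, χ j p ≠ 0) →
      ∃ (Af' : Submodule ℂ (Fin w → ℂ)) (Rm' : AddSubgroup (Fin b → ℤ))
        (W0 : Submodule ℂ (Fin w → ℂ)) (G0 : AddSubgroup (Fin l → ℤ)),
        (∀ a ∈ Af', ∀ i ∉ A, a i = 0) ∧
        ¬ (Af' = ⊥ ∧ Rm' = ⊥) ∧
        (∀ c, c ∈ W0 ↔ (∀ a ∈ Af', ∑ i, a i * c i = 0) ∧
          ∀ m ∈ Rm', ∑ j, (m j : ℂ) * ∑ i, c i * φ (γ i j) = 0) ∧
        (∀ s, s ∈ G0 ↔ (∀ a ∈ Af', ∑ i, a i * ∑ p, φ (α i p) * (s p : ℂ) = 0) ∧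
          ∀ m ∈ Rm', ∏ j, (∏ p, φ (χ j p) ^ s p) ^ m j = 1) ∧
        (w - finrank ℂ W0) * τ + (l - finrank ℤ G0) * σ ≤
          finrank ℂ Af' * κ + finrank ℤ Rm' * μ := by
  classical
  have hAw : A.card ≤ w := (Finset.card_le_univ A).trans (by simp)
  -- constants
  obtain ⟨N, hN⟩ : ∃ N, N = A.card + b := ⟨_, rfl⟩
  obtain ⟨C, hC⟩ : ∃ C, C = 2 ^ ((N + 1) * N) := ⟨_, rfl⟩
  have hC1 : 1 ≤ C := by rw [hC]; exact Nat.one_le_two_pow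
  obtain ⟨c', hc'⟩ : ∃ c', c' = (w + 1) * (C + 1) := ⟨_, rfl⟩
  obtain ⟨c, hc⟩ : ∃ c, c = (N + 1) * c' := ⟨_, rfl⟩
  have hcpos : 1 ≤ c := by
    rw [hc, hc']
    exact Nat.succ_le_of_lt (by positivity)
  obtain ⟨C1, hC1p, n0, hn0⟩ := Pool.Agent.L0h53.NP.growthU w b l r κ μ σ τ a c D0 g C0 hg0 hC0
    hb hl hκ hτ ha
  refine ⟨C1, hC1p, max n0 (C + 2), ?_⟩
  intro n hn F _ _ φ γ α χ x y ω Λ R ε Cx d hCx hCxΛ hCx1 hCx2 hCx3 hCx4 hγI hγ hαA hΛ hΛ0 hR1 hR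
    hd hdΛ hD hε0 hε hαd hχd hαR hχR hωR hχ0R hαε hχε hχ0
  have hn1 : n0 ≤ n := (le_max_left _ _).trans hn
  have hn2 : C + 2 ≤ n := (le_max_right _ _).trans hn
  obtain ⟨g1, g2⟩ := hn0 n hn1 (by omega) Λ R ε Cx d (finrank ℚ F) hΛ hΛ0 hR1 hR hd hdΛ
    (Module.finrank_pos) hD hε0 hε hCx hCxΛ
  have hnpos : 0 < n := by omega
  have hcountn : 2 * (n ^ (κ + a)) ^ (r + w) ≤ (n ^ κ + 1) ^ A.card * (n ^ μ + 1) ^ b := by
    calc 2 * (n ^ (κ + a)) ^ (r + w) = 2 * n ^ ((κ + a) * (r + w)) := by rw [← pow_mul]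
      _ ≤ n * n ^ ((κ + a) * (r + w)) := Nat.mul_le_mul_right _ (by omega)
      _ = n ^ ((κ + a) * (r + w) + 1) := by rw [pow_succ]; ring
      _ ≤ n ^ (A.card * κ + b * μ) := Nat.pow_le_pow_right hnpos hcount
      _ = (n ^ κ) ^ A.card * (n ^ μ) ^ b := by rw [← pow_mul, ← pow_mul, ← pow_add]; ring_nf
      _ ≤ _ := Nat.mul_le_mul (Nat.pow_le_pow_left (by omega) _) (Nat.pow_le_pow_left (by omega) _)
  obtain ⟨p, hp, hpv⟩ := aux_existsA φ A γ α χ x y ω (n ^ κ) (n ^ μ) (c * n ^ τ) (c * n ^ σ)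
    (n ^ (κ + a)) d g R ε Cx hd hg0 hR1 hε0 (Nat.one_le_pow _ _ hnpos)
    (Nat.succ_le_of_lt (Nat.mul_pos hcpos (Nat.pow_pos hnpos))) hγI hγ hαA hαd hχd hαR hχR hωR
    hχ0R hαε hχε hCx hCx1 hCx2 hCx3 hCx4 hcountn g1 g2
  obtain ⟨Af', Rm', W0, G0, h1, h2, h3, h4, l', q', h5, h6, h7, h8⟩ :=
    key_ineq A (fun i j => φ (γ i j))
      (fun i q => φ (α i q)) (fun j q => φ (χ j q)) zeg
      (fun j p => (map_ne_zero φ).mpr (hχ0 j p))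
      (n ^ κ) (n ^ μ) (c' * n ^ τ) (c' * n ^ σ)
      (Nat.one_le_pow _ _ hnpos) (Nat.one_le_pow _ _ hnpos) p
      (fun j i => (j.1 i : ℕ)) (fun j i => (j.2 i : ℕ))
      (by
        intro j i hi
        have : (j.1 i : ℕ) < (if i ∈ A then n ^ κ else 0) + 1 := (j.1 i).2
        rw [if_neg hi] at this
        omega)
      (by
        intro j j' h h'
        apply Prod.ext
        · funext i; exact Fin.ext (congrFun h i)
        · funext i; exact Fin.ext (congrFun h' i))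
      hp
      (by
        intro j i
        have : (j.1 i : ℕ) < (if i ∈ A then n ^ κ else 0) + 1 := (j.1 i).2
        split_ifs at this <;> omega)
      (fun j i => Nat.lt_succ_iff.mp (j.2 i).2)
      (by
        intro t s ht hs
        rw [← hN] at ht hs
        apply hpv t s
        · intro i
          refine (ht i).trans ?_
          rw [hc]
          calc N * (c' * n ^ τ) ≤ (N + 1) * (c' * n ^ τ) := Nat.mul_le_mul_right _ (by omega)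
            _ = _ := by ring
        · intro q
          refine (hs q).trans ?_
          rw [hc]
          calc N * (c' * n ^ σ) ≤ (N + 1) * (c' * n ^ σ) := Nat.mul_le_mul_right _ (by omega)
            _ = _ := by ring)
  refine ⟨Af', Rm', W0, G0, h1, h2, h3, h4, ?_⟩
  rw [← hN, ← hC] at h8
  have h9 : n ^ (l' * τ + q' * σ) ≤ C * n ^ (finrank ℂ Af' * κ + finrank ℤ Rm' * μ) := by
    have e1 : (n ^ κ) ^ finrank ℂ Af' * (n ^ μ) ^ finrank ℤ Rm' =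
        n ^ (finrank ℂ Af' * κ + finrank ℤ Rm' * μ) := by
      rw [← pow_mul, ← pow_mul, ← pow_add]; ring_nf
    rw [← e1]
    refine le_trans ?_ h8
    have e2 : n ^ (l' * τ + q' * σ) = (n ^ σ) ^ q' * (n ^ τ) ^ l' := by
      rw [← pow_mul, ← pow_mul, ← pow_add]; ring_nf
    rw [e2]
    apply Nat.mul_le_mul
    · apply Nat.pow_le_pow_left
      have : 1 ≤ c' := by rw [hc']; exact Nat.succ_le_of_lt (by positivity)
      nlinarith [Nat.pow_pos (n := σ) hnpos]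
    · rcases Nat.eq_zero_or_pos l' with h0 | h0
      · rw [h0, pow_zero, pow_zero]
      · apply Nat.pow_le_pow_left
        have h10 : n ^ τ ≤ c' * n ^ τ / l' := by
          rw [Nat.le_div_iff_mul_le h0]
          calc n ^ τ * l' ≤ n ^ τ * (w + 1) := Nat.mul_le_mul_left _ (by omega)
            _ = (w + 1) * 1 * n ^ τ := by ring
            _ ≤ (w + 1) * (C + 1) * n ^ τ := by gcongr; omega
            _ = _ := by rw [hc']
        omega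
  have h10 := arith_exp (by omega) h9
  have h11 : w - finrank ℂ W0 ≤ l' := by omega
  have h12 : l - finrank ℤ G0 ≤ q' := by omega
  have h13 : (w - finrank ℂ W0) * τ ≤ l' * τ := Nat.mul_le_mul_right _ h11
  have h14 : (l - finrank ℤ G0) * σ ≤ q' * σ := Nat.mul_le_mul_right _ h12
  omega

end Pool.Agent.L0h53.RA
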