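import Mathlib

set_option autoImplicit false

/-! Choice of the parameters. -/

namespace Pool.Agent.L0h53.RA

/-- the parameters, given a rational number -/
theorem params_aux (d l r m e P Q : ℕ) (hd : 1 ≤ d) (hQ : 1 ≤ Q)
    (h : Q * ((m + 1 + e) * (d * l)) + P * (r * (d + l)) + 1 ≤ P * (d * l)) :
    ∃ a σ μ : ℕ, 2 ≤ a ∧ 1 ≤ σ ∧ (∃ T : ℕ, 0 < T ∧ a = Q * T ∧ μ + σ + a = P * T) ∧
      (μ + σ + a) * (r + d * m) + e * (d * a) + 1 ≤ d * (m + 1) * μ ∧
      d * μ < e * (d * (a - 1)) + d * m * (σ + a - 1) + l * (m + 1) * σ := by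
  obtain ⟨T, hT⟩ : ∃ T, T = (d + l) * (m + 1) * d + e * d * d + d * d * m + 2 := ⟨_, rfl⟩
  obtain ⟨μ, hμ⟩ : ∃ μ, μ = (P * T * (r + d * m) + e * (d * (Q * T))) / ((m + 1) * d) + 1 :=
    ⟨_, rfl⟩
  have hmd : 0 < (m + 1) * d := by positivity
  have h1 : P * T * (r + d * m) + e * (d * (Q * T)) + 1 ≤ (m + 1) * d * μ := by
    have := Nat.lt_mul_div_succ (P * T * (r + d * m) + e * (d * (Q * T))) hmd
    rw [hμ]
    omega
  have h2 : (m + 1) * d * μ ≤ P * T * (r + d * m) + e * (d * (Q * T)) + (m + 1) * d := by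
    have := Nat.mul_div_le (P * T * (r + d * m) + e * (d * (Q * T))) ((m + 1) * d)
    rw [hμ, Nat.mul_add, mul_one]
    omega
  have hl1 : 1 ≤ l := by
    rcases Nat.eq_zero_or_pos l with h0 | h0
    · subst h0; simp at h
    · exact h0
  have hT2 : 2 ≤ T := by omega
  have hTl : (m + 1) * d * l + 1 ≤ T := by
    rw [hT]
    have : (d + l) * (m + 1) * d = d * (m + 1) * d + (m + 1) * d * l := by ring
    rw [this]
    have : 0 ≤ d * (m + 1) * d := Nat.zero_le _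
    omega
  have hσ : Q * T + μ + 1 ≤ P * T := by
    by_contra hc
    push Not at hc
    have hc' : P * T ≤ Q * T + μ := by omega
    have k1 : (m + 1) * d * l * (P * T) ≤ (m + 1) * d * l * (Q * T + μ) :=
      Nat.mul_le_mul_left _ hc'
    have k2 : l * ((m + 1) * d * μ) ≤
        l * (P * T * (r + d * m) + e * (d * (Q * T)) + (m + 1) * d) := Nat.mul_le_mul_left _ h2
    have k3 : T * (Q * ((m + 1 + e) * (d * l)) + P * (r * (d + l)) + 1) ≤ T * (P * (d * l)) :=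
      Nat.mul_le_mul_left _ h
    have k4 : 0 ≤ T * P * (r * d) := Nat.zero_le _
    nlinarith
  obtain ⟨σ, hσ'⟩ : ∃ σ, P * T = Q * T + μ + 1 + σ := Nat.exists_eq_add_of_le hσ
  have hQT : 2 ≤ Q * T := by nlinarith
  have hsum : μ + (σ + 1) + Q * T = P * T := by omega
  refine ⟨Q * T, σ + 1, μ, hQT, by omega, ⟨T, by omega, rfl, hsum⟩, ?_, ?_⟩
  · rw [hsum]
    have e1 : d * (m + 1) * μ = (m + 1) * d * μ := by ring
    rw [e1]
    exact h1
  · obtain ⟨A, hA⟩ : ∃ A, Q * T = A + 1 := ⟨Q * T - 1, by omega⟩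
    have e1 : Q * T - 1 = A := by omega
    have e2 : σ + 1 + Q * T - 1 = σ + 1 + A := by omega
    rw [e1, e2]
    have hQT' : (Q : ℤ) * T = A + 1 := by exact_mod_cast hA
    have hPT' : (P : ℤ) * T = A + 1 + μ + 1 + σ := by
      have : P * T = A + 1 + μ + 1 + σ := by omega
      exact_mod_cast this
    have hT' : (T : ℤ) = (d + l) * (m + 1) * d + e * d * d + d * d * m + 2 := by exact_mod_cast hT
    have h2' : ((m : ℤ) + 1) * d * μ ≤ (P * T) * (r + d * m) + e * (d * (Q * T)) + (m + 1) * d := by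
      exact_mod_cast h2
    have h' : (Q : ℤ) * ((m + 1 + e) * (d * l)) + P * (r * (d + l)) + 1 ≤ P * (d * l) := by
      exact_mod_cast h
    have k1 : ((d : ℤ) + l) * (((m : ℤ) + 1) * d * μ) ≤
        (d + l) * ((P * T) * (r + d * m) + e * (d * (Q * T)) + (m + 1) * d) :=
      mul_le_mul_of_nonneg_left h2' (by positivity)
    have k2 : (T : ℤ) * (Q * ((m + 1 + e) * (d * l)) + P * (r * (d + l)) + 1) ≤
        T * (P * (d * l)) := mul_le_mul_of_nonneg_left h' (by positivity)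
    have k3 : (T : ℤ) * (Q * ((m + 1 + e) * (d * l)) + P * (r * (d + l)) + 1) =
      (Q * T) * ((m + 1 + e) * (d * l)) + (P * T) * (r * (d + l)) + T := by ring
    have k4 : (T : ℤ) * (P * (d * l)) = (P * T) * (d * l) := by ring
    rw [k3, k4] at k2
    rw [hPT', hQT'] at k1 k2
    have key : (d : ℤ) * (d * μ) < d * (e * (d * A) + d * m * (σ + 1 + A) + l * (m + 1) * (σ + 1)) := by
      nlinarith
    have := lt_of_mul_lt_mul_left key (by positivity)
    exact_mod_cast this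

/-- the choice of the parameters -/
theorem params (d l r m e : ℕ) (hd : 1 ≤ d) (h : r * (d + l) < d * l) (κ' : ℝ)
    (hκ : ((m + 1 + e) * (d * l) : ℝ) / (d * l - r * (d + l)) < κ') : ∃ a σ μ : ℕ, 2 ≤ a ∧ 1 ≤ σ ∧
      (μ + σ + a) * (r + d * m) + e * (d * a) + 1 ≤ d * (m + 1) * μ ∧
      d * μ < e * (d * (a - 1)) + d * m * (σ + a - 1) + l * (m + 1) * σ ∧
      ((μ + σ + a : ℕ) : ℝ) / a ≤ κ' := by
  have hΔ : (0 : ℝ) < d * l - r * (d + l) := by
    have : ((r * (d + l) : ℕ) : ℝ) < ((d * l : ℕ) : ℝ) := by exact_mod_cast h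
    push_cast at this
    linarith
  obtain ⟨q, hq1, hq2⟩ := exists_rat_btwn hκ
  have hq0 : (0 : ℝ) < q := lt_of_le_of_lt (by positivity) hq1
  have hq0' : 0 < q := by exact_mod_cast hq0
  obtain ⟨P, hP⟩ : ∃ P : ℕ, (P : ℤ) = q.num := ⟨q.num.toNat, Int.toNat_of_nonneg
    (Rat.num_nonneg.mpr hq0'.le)⟩
  have hqe : (q : ℝ) = (P : ℝ) / (q.den : ℝ) := by
    have h1 : (q : ℚ) = (P : ℚ) / (q.den : ℚ) := by
      have h0 : ((q.num : ℤ) : ℚ) = (P : ℚ) := by rw [← hP]; simp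
      rw [← h0]
      exact (Rat.num_div_den q).symm
    have h2 := congrArg (fun x : ℚ => (x : ℝ)) h1
    simpa using h2
  have hden : (0 : ℝ) < q.den := by exact_mod_cast q.den_pos
  rw [hqe, div_lt_div_iff₀ hΔ hden] at hq1
  have hnat : q.den * ((m + 1 + e) * (d * l)) + P * (r * (d + l)) + 1 ≤ P * (d * l) := by
    have : ((q.den * ((m + 1 + e) * (d * l)) + P * (r * (d + l)) : ℕ) : ℝ) <
        ((P * (d * l) : ℕ) : ℝ) := by
      push_cast
      nlinarith
    have h3 : q.den * ((m + 1 + e) * (d * l)) + P * (r * (d + l)) < P * (d * l) := by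
      exact_mod_cast this
    omega
  obtain ⟨a, σ, μ, ha, hσ, ⟨T, hT, haT, hsum⟩, h1, h2⟩ := params_aux d l r m e P q.den hd
    q.den_pos hnat
  refine ⟨a, σ, μ, ha, hσ, h1, h2, ?_⟩
  rw [hsum, haT]
  push_cast
  have hTR : (0 : ℝ) < T := by exact_mod_cast hT
  rw [mul_div_mul_right _ _ hTR.ne', ← hqe]
  exact hq2.le

end Pool.Agent.L0h53.RA
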