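import Mathlib
import Pool.Agent.L0h53.RA.Blk

set_option autoImplicit false

/-! The algebraic directions, and the dimension of their intersection with the tangent space of the
obstruction subgroup. -/

namespace Pool.Agent.L0h53.RA

open Finset Module Pool.Agent.L0h53.RK

section dirs

variable {E : Type} [Field E] [NumberField E] (ψ : E →ₐ[ℚ] ℂ) {m : ℕ} (ω : Fin (m + 1) → E)

/-- the coordinates of the directions -/
def g0 (h k : Fin (m + 1)) : E := (if h ≠ 0 ∧ k = h then 1 else 0) - (if k = 0 then ω h else 0)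

variable {w d : ℕ} (dir : Fin w → Fin d × Fin (m + 1))

/-- the directions -/
def gam (i : Fin w) (J : Fin (d * (m + 1))) : E :=
  if (dir i).1 = (finProdFinEquiv.symm J).1 then g0 ω (dir i).2 (finProdFinEquiv.symm J).2 else 0

theorem gam_apply (i : Fin w) (j : Fin d) (k : Fin (m + 1)) :
    gam ω dir i (finProdFinEquiv (j, k)) = if (dir i).1 = j then g0 ω (dir i).2 k else 0 := by
  unfold gam
  rw [Equiv.symm_apply_apply]

/-- the pairing with the directions -/
noncomputable def GT : (Fin (d * (m + 1)) → ℂ) →ₗ[ℂ] (Fin w → ℂ) where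
  toFun x i := ∑ J, x J * ψ (gam ω dir i J)
  map_add' x y := by funext j; simp [add_mul, Finset.sum_add_distrib]
  map_smul' c x := by
    funext j
    simp only [Pi.smul_apply, smul_eq_mul, RingHom.id_apply, Finset.mul_sum]
    exact Finset.sum_congr rfl fun _ _ => by ring

theorem GT_apply (x : Fin (d * (m + 1)) → ℂ) (i : Fin w) :
    GT ψ ω dir x i = (if (dir i).2 ≠ 0 then x (finProdFinEquiv (dir i)) else 0) -
      ψ (ω (dir i).2) * x (finProdFinEquiv ((dir i).1, 0)) := by
  change ∑ J, x J * ψ (gam ω dir i J) = _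
  rw [sum_dbl]
  simp only [gam_apply]
  rw [Finset.sum_eq_single (dir i).1]
  · simp only [if_true]
    unfold g0
    simp only [map_sub, mul_sub, Finset.sum_sub_distrib]
    congr 1
    · by_cases h : (dir i).2 ≠ 0
      · rw [if_pos h, Finset.sum_eq_single (dir i).2]
        · simp [h]
        · intro k _ hk
          simp [hk]
        · intro hk; exact absurd (Finset.mem_univ _) hk
      · rw [if_neg h]
        apply Finset.sum_eq_zero
        intro k _
        rw [if_neg (fun hh => h hh.1)]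
        simp
    · rw [Finset.sum_eq_single 0]
      · simp [mul_comm]
      · intro k _ hk
        simp [hk]
      · intro hk; exact absurd (Finset.mem_univ _) hk
  · intro j _ hj
    apply Finset.sum_eq_zero
    intro k _
    rw [if_neg (Ne.symm hj), map_zero, mul_zero]
  · intro hk; exact absurd (Finset.mem_univ _) hk

theorem GT_phT (hω0 : ω 0 = 1) (u : Fin d → ℂ) (i : Fin w) :
    GT ψ ω dir (phT ψ ω d u) i = if (dir i).2 = 0 then -u (dir i).1 else 0 := by
  rw [GT_apply]
  have e : finProdFinEquiv (dir i) = finProdFinEquiv ((dir i).1, (dir i).2) := rfl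
  rw [e, phT_apply, phT_apply, hω0, map_one, one_mul]
  by_cases h : (dir i).2 = 0
  · rw [if_neg (not_not.mpr h), if_pos h, h, hω0, map_one]
    ring
  · rw [if_pos h, if_neg h]
    ring

/-- the space of the linear forms, for a space of additive relations -/
noncomputable def spA (Rm : AddSubgroup (Fin (d * (m + 1)) → ℤ)) (Af : Submodule ℂ (Fin w → ℂ)) :
    Submodule ℂ (Fin d → ℂ) :=
  ((Submodule.span ℂ (vc '' (Rm : Set (Fin (d * (m + 1)) → ℤ)))) ⊓ Af.comap (GT ψ ω dir)).comap
    (phT ψ ω d)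

theorem spA_le (Rm : AddSubgroup (Fin (d * (m + 1)) → ℤ)) (Af : Submodule ℂ (Fin w → ℂ)) :
    spA ψ ω dir Rm Af ≤ sp ψ d Rm ω := fun _ hu => hu.1

/-- **The dimension of the space of the tangent directions.** -/
theorem dim_W0 (hω0 : ω 0 = 1) (hdir1 : ∀ j (h : Fin m), ∃ i, dir i = (j, h.succ))
    (Rm : AddSubgroup (Fin (d * (m + 1)) → ℤ)) (Af W0 : Submodule ℂ (Fin w → ℂ))
    (hAf : ∀ b ∈ Af, ∀ i, (dir i).2 ≠ 0 → b i = 0)
    (h1 : ∀ c ∈ W0, ∀ b ∈ Af, ∑ i, b i * c i = 0)
    (h2 : ∀ c ∈ W0, ∀ m' ∈ Rm, ∑ J, (m' J : ℂ) * ∑ i, c i * ψ (gam ω dir i J) = 0) :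
    finrank ℂ Af + finrank ℤ Rm + finrank ℂ W0 ≤ w + finrank ℂ (spA ψ ω dir Rm Af) := by
  obtain ⟨R, hR⟩ : ∃ R, R = Submodule.span ℂ (vc '' (Rm : Set (Fin (d * (m + 1)) → ℤ))) := ⟨_, rfl⟩
  have hRR : finrank ℤ Rm ≤ finrank ℂ R := rank_cast Rm R fun m' hm' => by
    rw [hR]; exact Submodule.subset_span ⟨m', hm', rfl⟩
  -- the sum
  let F : (Af × R) →ₗ[ℂ] (Fin w → ℂ) :=
    Af.subtype.coprod ((GT ψ ω dir).comp R.subtype)
  have hF : ∀ (a : Af) (x : R), F (a, x) = (a : Fin w → ℂ) + GT ψ ω dir (x : Fin (d * (m + 1)) → ℂ) := by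
    intro a x
    simp [F]
  have hpair : finrank ℂ (LinearMap.range F) + finrank ℂ W0 ≤ w := by
    apply pair_le
    rintro _ ⟨⟨a, x⟩, rfl⟩ c hc
    rw [hF]
    simp only [Pi.add_apply, add_mul, Finset.sum_add_distrib]
    rw [h1 c hc a a.2, zero_add]
    -- the relations
    let g : (Fin (d * (m + 1)) → ℂ) →ₗ[ℂ] ℂ :=
      { toFun := fun x => ∑ i, GT ψ ω dir x i * c i
        map_add' := fun x y => by simp [add_mul, Finset.sum_add_distrib]
        map_smul' := fun b x => by
          rw [map_smul]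
          simp only [Pi.smul_apply, smul_eq_mul, RingHom.id_apply, Finset.mul_sum]
          exact Finset.sum_congr rfl fun _ _ => by ring }
    have hRg : R ≤ LinearMap.ker g := by
      rw [hR, Submodule.span_le]
      rintro _ ⟨m', hm', rfl⟩
      change ∑ i, GT ψ ω dir (vc m') i * c i = 0
      rw [← h2 c hc m' hm']
      change ∑ i, (∑ J, vc m' J * ψ (gam ω dir i J)) * c i = _
      simp only [Finset.sum_mul, Finset.mul_sum]
      rw [Finset.sum_comm]
      exact Finset.sum_congr rfl fun J _ => Finset.sum_congr rfl fun i _ => by unfold vc; ring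
    exact hRg x.2
  have hdim := LinearMap.finrank_range_add_finrank_ker F
  rw [Module.finrank_prod] at hdim
  -- the kernel
  have hker : finrank ℂ (LinearMap.ker F) ≤ finrank ℂ (spA ψ ω dir Rm Af) := by
    let pr : (Fin (d * (m + 1)) → ℂ) →ₗ[ℂ] (Fin d → ℂ) :=
      { toFun := fun x j => x (finProdFinEquiv (j, 0))
        map_add' := fun x y => rfl
        map_smul' := fun b x => rfl }
    have hk : ∀ (a : Af) (x : R), F (a, x) = 0 → GT ψ ω dir (x : Fin (d * (m + 1)) → ℂ) ∈ Af ∧
        phT ψ ω d (pr x) = x := by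
      intro a x h0
      rw [hF] at h0
      have h3 : GT ψ ω dir (x : Fin (d * (m + 1)) → ℂ) = -(a : Fin w → ℂ) := by
        rw [← neg_eq_of_add_eq_zero_right h0]
      refine ⟨by rw [h3]; exact Af.neg_mem a.2, ?_⟩
      funext J
      obtain ⟨⟨j, h⟩, rfl⟩ := finProdFinEquiv.surjective J
      rw [phT_apply]
      change ψ (ω h) * (x : Fin (d * (m + 1)) → ℂ) (finProdFinEquiv (j, 0)) = _
      rcases Fin.eq_zero_or_eq_succ h with h4 | ⟨h', h4⟩
      · rw [h4, hω0, map_one, one_mul]
      · obtain ⟨i, hi⟩ := hdir1 j h'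
        have h5 := congrFun h3 i
        have h6 : (a : Fin w → ℂ) i = 0 := hAf a a.2 i (by rw [hi]; exact Fin.succ_ne_zero _)
        rw [Pi.neg_apply, h6, neg_zero, GT_apply, hi] at h5
        simp only [ne_eq, Fin.succ_ne_zero, not_false_eq_true, if_true] at h5
        rw [h4]
        exact (sub_eq_zero.mp h5).symm
    let f : spA ψ ω dir Rm Af →ₗ[ℂ] (Af × R) :=
      { toFun := fun u => (⟨-GT ψ ω dir (phT ψ ω d u), Af.neg_mem u.2.2⟩,
          ⟨phT ψ ω d u, by rw [hR]; exact u.2.1⟩)
        map_add' := fun x y => by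
          apply Prod.ext
          · apply Subtype.ext
            simp only [Submodule.coe_add, map_add, neg_add_rev, Prod.fst_add]
            rw [add_comm]
          · apply Subtype.ext
            simp only [Submodule.coe_add, map_add, Prod.snd_add]
        map_smul' := fun b x => by
          apply Prod.ext
          · apply Subtype.ext
            simp only [Submodule.coe_smul, map_smul, RingHom.id_apply, Prod.smul_fst, smul_neg]
          · apply Subtype.ext
            simp only [Submodule.coe_smul, map_smul, RingHom.id_apply, Prod.smul_snd] }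
    have hle : LinearMap.ker F ≤ LinearMap.range f := by
      rintro ⟨a, x⟩ hy
      obtain ⟨k1, k2⟩ := hk a x hy
      have hmem : phT ψ ω d (pr (x : Fin (d * (m + 1)) → ℂ)) ∈
          (Submodule.span ℂ (vc '' (Rm : Set (Fin (d * (m + 1)) → ℤ)))) ⊓
            Af.comap (GT ψ ω dir) := by
        rw [k2]
        exact ⟨by rw [← hR]; exact x.2, k1⟩
      have hy' : F (a, x) = 0 := hy
      rw [hF] at hy'
      refine ⟨⟨pr (x : Fin (d * (m + 1)) → ℂ), hmem⟩, ?_⟩
      apply Prod.ext
      · apply Subtype.ext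
        change -GT ψ ω dir (phT ψ ω d (pr (x : Fin (d * (m + 1)) → ℂ))) = (a : Fin w → ℂ)
        rw [k2]
        exact neg_eq_of_add_eq_zero_left hy'
      · apply Subtype.ext
        exact k2
    exact (Submodule.finrank_mono hle).trans (LinearMap.finrank_range_le f)
  omega

/-- the additive relations -/
theorem dim_Af (hω0 : ω 0 = 1) (hdir0 : ∀ j, ∃ i, dir i = (j, 0))
    (Rm : AddSubgroup (Fin (d * (m + 1)) → ℤ)) (Af : Submodule ℂ (Fin w → ℂ)) :
    finrank ℂ (spA ψ ω dir Rm Af) ≤ finrank ℂ Af := by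
  let f : spA ψ ω dir Rm Af →ₗ[ℂ] Af :=
    { toFun := fun u => ⟨GT ψ ω dir (phT ψ ω d u), u.2.2⟩
      map_add' := fun x y => by ext1; simp
      map_smul' := fun b x => by ext1; simp }
  apply LinearMap.finrank_le_finrank_of_injective (f := f)
  refine (injective_iff_map_eq_zero f).mpr ?_
  intro u hu
  apply Subtype.ext
  funext j
  obtain ⟨i, hi⟩ := hdir0 j
  have h1 : GT ψ ω dir (phT ψ ω d u) = 0 := congrArg Subtype.val hu
  have h2 := congrFun h1 i
  rw [GT_phT ψ ω dir hω0, hi] at h2
  simpa using h2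

end dirs

end Pool.Agent.L0h53.RA
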