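import Mathlib
import Pool.Agent.L0h53.RA.Core
import Pool.Agent.L0h53.RA.Params
import Pool.Agent.L0h53.RA.Str

set_option autoImplicit false

/-! Matrices of linear forms in logarithms with coefficients in a number field. -/

namespace Pool.Agent.L0h53.RA

open Finset Module Pool.Agent.L0h53.RK

section approx

variable {E : Type} [Field E] [NumberField E] (ψ : E →ₐ[ℚ] ℂ) {m : ℕ} {ω : Fin (m + 1) → E}

/-- the matrix of low rank with double indices -/
noncomputable def NN (ω : Fin (m + 1) → E) {d l : ℕ} (q : ℕ) (N : Matrix (Fin d) (Fin l) ℂ) :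
    Matrix (Fin (d * (m + 1))) (Fin (l * (m + 1))) ℂ :=
  Matrix.of fun J P => if (finProdFinEquiv.symm J).2 = 0 then
    (q : ℂ) * ψ (ω (finProdFinEquiv.symm P).2) *
      N (finProdFinEquiv.symm J).1 (finProdFinEquiv.symm P).1 else 0

theorem NN_apply {d l : ℕ} (q : ℕ) (N : Matrix (Fin d) (Fin l) ℂ) (j : Fin d) (k : Fin (m + 1))
    (p : Fin l) (h' : Fin (m + 1)) :
    NN ψ ω q N (finProdFinEquiv (j, k)) (finProdFinEquiv (p, h')) =
      if k = 0 then (q : ℂ) * ψ (ω h') * N j p else 0 := by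
  unfold NN
  rw [Matrix.of_apply, Equiv.symm_apply_apply, Equiv.symm_apply_apply]

theorem NN_rank {d l : ℕ} (q : ℕ) (N : Matrix (Fin d) (Fin l) ℂ) :
    (NN ψ ω q N).rank ≤ N.rank := by
  let P1 : Matrix (Fin (d * (m + 1))) (Fin d) ℂ := Matrix.of fun J j =>
    if (finProdFinEquiv.symm J).2 = 0 ∧ (finProdFinEquiv.symm J).1 = j then 1 else 0
  let P2 : Matrix (Fin l) (Fin (l * (m + 1))) ℂ := Matrix.of fun p P =>
    if (finProdFinEquiv.symm P).1 = p then (q : ℂ) * ψ (ω (finProdFinEquiv.symm P).2) else 0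
  have e : NN ψ ω q N = P1 * N * P2 := by
    ext J P
    rw [Matrix.mul_apply]
    simp only [Matrix.mul_apply, P1, P2, Matrix.of_apply, NN]
    by_cases h : (finProdFinEquiv.symm J).2 = 0
    · simp only [h, true_and, if_true, ite_mul, one_mul, zero_mul, Finset.sum_ite_eq,
        Finset.mem_univ, mul_ite, mul_zero]
      ring
    · simp only [h, false_and, if_false, zero_mul, Finset.sum_const_zero]
  rw [e]
  exact (Matrix.rank_mul_le_left _ _).trans (Matrix.rank_mul_le_right _ _)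

/-- the linear forms of the logarithms -/
theorem ph_lam {n d l : ℕ} {q : ℕ} {M : Fin n → Fin d → Fin l → E}
    {c : Fin n → Fin d → Fin l → Fin (m + 1) → Fin (m + 1) → ℤ}
    (hc : ∀ i j p h', ∑ h, (c i j p h' h : E) * ω h = (q : E) * (M i j p * ω h'))
    (lam : Fin n → ℂ) (j : Fin d) (p : Fin l) (h' : Fin (m + 1)) :
    ∑ h, ψ (ω h) * ∑ i, (Am c i (finProdFinEquiv (j, h)) (finProdFinEquiv (p, h')) : ℂ) * lam i =
      (q : ℂ) * ψ (ω h') * ∑ i, ψ (M i j p) * lam i := by
  simp only [Am_apply, Finset.mul_sum]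
  rw [Finset.sum_comm]
  refine Finset.sum_congr rfl fun i _ => ?_
  have h2 := congrArg ψ (hc i j p h')
  rw [map_sum] at h2
  simp only [map_mul, map_intCast, map_natCast] at h2
  have h3 : ∑ h, ψ (ω h) * (((c i j p h' h : ℤ) : ℂ) * lam i) =
      (∑ h, ((c i j p h' h : ℤ) : ℂ) * ψ (ω h)) * lam i := by
    rw [Finset.sum_mul]
    exact Finset.sum_congr rfl fun _ _ => by ring
  rw [h3, h2]
  ring

end approx

/-- **Balanced matrices of linear forms in logarithms, with coefficients in a number field.** -/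
theorem bal_core {E : Type} [Field E] [NumberField E] (ψ : E →ₐ[ℚ] ℂ) (n d l r m e w D0 : ℕ)
    (hd : 1 ≤ d) (he : e ≤ 1) (h : r * (d + l) < d * l) {ω : Fin (m + 1) → E}
    (hω : LinearIndependent ℚ ω) (hm : finrank ℚ E = m + 1) (hω0 : ω 0 = 1)
    (hωI : ∀ h, IsIntegral ℤ (ω h))
    (M₀ : Fin d → Fin l → E) (M : Fin n → Fin d → Fin l → E)
    (hM₀ : e = 0 → M₀ = fun _ _ => 0)
    (hbal : ∀ (U : Submodule ℂ (Fin d → ℂ)) (V : Submodule ℂ (Fin l → ℂ)),
      (∀ u ∈ U, ∀ v ∈ V, ∑ j, ∑ p, u j * ψ (M₀ j p) * v p = 0) →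
      (∀ i, ∀ u ∈ U, ∀ v ∈ V, ∑ j, ∑ p, u j * ψ (M i j p) * v p = 0) →
      finrank ℂ U * l + finrank ℂ V * d ≤ d * l)
    (dir : Fin w → Fin d × Fin (m + 1))
    (hdS : ∀ f : Fin d × Fin (m + 1) → ℂ,
      ∑ i, f (dir i) = ∑ j, ∑ h : Fin m, f (j, h.succ) + e * ∑ j, f (j, 0))
    (hd1 : ∀ j (h : Fin m), ∃ i, dir i = (j, h.succ)) (hd0 : e = 1 → ∀ j, ∃ i, dir i = (j, 0))
    (hA : (univ.filter fun i => (dir i).2 = 0).card = e * d) (hw : w = d * (m + e))
    (κ' : ℝ) (hκ : ((m + 1 + e) * (d * l) : ℝ) / (d * l - r * (d + l)) < κ')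
    (c0 : ℝ) (hc0 : 0 ≤ c0) :
    ∃ C : ℝ, 0 < C ∧ ∀ H : ℝ, 3 ≤ H →
    ∀ (K : Type) [Field K] [NumberField K] (ι : E →ₐ[ℚ] K) (φ : K →ₐ[ℚ] ℂ) (z : Fin n → K)
      (lam : Fin n → ℂ) (N : Matrix (Fin d) (Fin l) ℂ), (∀ x, φ (ι x) = ψ x) →
      finrank ℚ K ≤ D0 → (∀ i, z i ≠ 0) → (∀ i, Ht H (z i)) → (∀ i, Ht H (z i)⁻¹) →
      (∀ i, Complex.exp (lam i) = φ (z i)) → (∀ i, ‖lam i‖ ≤ c0 * Real.log H) →
      N.rank ≤ r →
      (∀ j p, ‖ψ (M₀ j p) + ∑ i, ψ (M i j p) * lam i - N j p‖ ≤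
        Real.exp (-(C * Real.log H ^ κ'))) →
      ∃ t : Fin n → ℤ, t ≠ 0 ∧ ∏ i, z i ^ t i = 1 := by
  classical
  have hl : 1 ≤ l := by
    rcases Nat.eq_zero_or_pos l with h0 | h0
    · subst h0; simp at h
    · exact h0
  obtain ⟨q, c, hq, hc, hqM₀⟩ := exists_mat hω hm hωI M M₀
  obtain ⟨a, σ, μ, ha, hσ, hP1, hP2, hP3⟩ := params d l r m e hd h κ' hκ
  obtain ⟨m0, hm1, hm0⟩ := exists_sizeR (Am (m := m) c)
  -- the sizes of the coefficients
  obtain ⟨g, hg0, hg⟩ := exists_bd (E := E) (fun t : Fin w × Fin (d * (m + 1)) =>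
    gam ω dir t.1 t.2)
  obtain ⟨gω, hgω0, hgω⟩ := exists_bd (E := E) ω
  obtain ⟨B, hB0, hB⟩ := exists_bd (E := E) (fun t : Fin d × Fin l × Fin (m + 1) =>
    (q : E) * M₀ t.1 t.2.1 * ω t.2.2)
  obtain ⟨b, hb⟩ : ∃ b, b = d * (m + 1) := ⟨_, rfl⟩
  have hb1 : 1 ≤ d * (m + 1) := Nat.mul_pos hd (Nat.succ_pos m)
  have hl1 : 1 ≤ l * (m + 1) := Nat.mul_pos hl (Nat.succ_pos m)
  have hcount : (μ + σ + a) * (r + w) + 1 ≤
      (univ.filter fun i => (dir i).2 = 0).card * (μ + σ) + d * (m + 1) * μ := by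
    rw [hA, hw]
    have e1 : (μ + σ + a) * (r + d * (m + e)) =
        (μ + σ + a) * (r + d * m) + e * (d * a) + e * d * (μ + σ) := by ring
    rw [e1]
    omega
  obtain ⟨C, hC, hmain⟩ := core_alg w (d * (m + 1)) (l * (m + 1)) r D0
    (univ.filter fun i => (dir i).2 = 0) (μ + σ) μ σ (μ + σ + a - 1) a hb1 hl1 rfl (by omega)
    (by omega) hcount κ' hP3 (c0 + B) B g (by linarith) hB0 hg0
  refine ⟨C * (m0 : ℝ) ^ κ' + q * gω, by positivity, ?_⟩
  intro H hH K _ _ ι φ z lam N hφ hD hz0 hzH hzH' hexp hlam hN hclose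
  have hH1 : 1 ≤ H := by linarith
  have hHm : 3 ≤ H ^ m0 := by
    calc (3 : ℝ) ≤ H := hH
      _ = H ^ 1 := (pow_one H).symm
      _ ≤ H ^ m0 := pow_le_pow_right₀ hH1 hm1
  have hlog : 1 ≤ Real.log H := by
    rw [Real.le_log_iff_exp_le (by linarith)]
    have := Real.exp_one_lt_d9
    linarith
  have hlogm : 1 ≤ Real.log (H ^ m0) := by
    rw [Real.le_log_iff_exp_le (by positivity)]
    have := Real.exp_one_lt_d9
    linarith
  have hκ'0 : 0 ≤ κ' := by
    refine le_trans ?_ hP3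
    positivity
  have hLκ : 1 ≤ Real.log H ^ κ' := Real.one_le_rpow hlog hκ'0
  -- the conjugates of the coefficients
  have hconj : ∀ (τ' : K →ₐ[ℚ] ℂ) (x : E), τ' (ι x) = (τ'.comp ι) x := fun _ _ => rfl
  let lamM : Fin (d * (m + 1)) → Fin (l * (m + 1)) → ℂ := fun J P => ∑ i, (Am c i J P : ℂ) * lam i
  let β : Fin w → Fin (l * (m + 1)) → K := fun i P =>
    if (dir i).2 = 0 then ι ((q : E) * M₀ (dir i).1 (finProdFinEquiv.symm P).1 *
      ω (finProdFinEquiv.symm P).2) else 0
  let ων : Fin w → Fin (l * (m + 1)) → ℂ := fun i P =>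
    if (dir i).2 = 0 then φ (β i P) else lamM (finProdFinEquiv (dir i)) P
  have hlamM : ∀ J P, ‖lamM J P‖ ≤ c0 * Real.log (H ^ m0) := fun J P =>
    zr_size hm0 hc0 hH1 hlam J P
  have hβB : ∀ (τ' : K →ₐ[ℚ] ℂ) i P, ‖τ' (β i P)‖ ≤ B := by
    intro τ' i P
    by_cases hi : (dir i).2 = 0
    · simp only [β, if_pos hi]
      rw [hconj]
      exact hB (τ'.comp ι) ((dir i).1, (finProdFinEquiv.symm P).1, (finProdFinEquiv.symm P).2)
    · simp only [β, if_neg hi, map_zero, norm_zero]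
      exact hB0
  -- the approximation
  have happ : ∀ J P, ‖lamM J P - ∑ i, φ (ι (gam ω dir i J)) * ων i P - NN ψ ω q N J P‖ ≤
      Real.exp (-(C * Real.log (H ^ m0) ^ κ')) := by
    intro J P
    obtain ⟨⟨j, k⟩, rfl⟩ := finProdFinEquiv.surjective J
    obtain ⟨⟨p, h'⟩, rfl⟩ := finProdFinEquiv.surjective P
    let f : Fin d × Fin (m + 1) → ℂ := fun t =>
      ψ (if t.1 = j then g0 ω t.2 k else 0) * (if t.2 = 0 then ψ ((q : E) * M₀ t.1 p * ω h')
        else lamM (finProdFinEquiv t) (finProdFinEquiv (p, h')))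
    have h1 : ∑ i, φ (ι (gam ω dir i (finProdFinEquiv (j, k)))) * ων i (finProdFinEquiv (p, h')) =
        ∑ i, f (dir i) := by
      refine Finset.sum_congr rfl fun i _ => ?_
      rw [hφ, gam_apply]
      simp only [f, ων, β]
      congr 1
      by_cases hi : (dir i).2 = 0
      · rw [if_pos hi, if_pos hi, if_pos hi, hφ, Equiv.symm_apply_apply]
      · rw [if_neg hi, if_neg hi]
    rw [h1, hdS f]
    have h2 : ∑ j', ∑ h : Fin m, f (j', h.succ) = ∑ h : Fin m, ψ (g0 ω h.succ k) *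
        lamM (finProdFinEquiv (j, h.succ)) (finProdFinEquiv (p, h')) := by
      rw [Finset.sum_eq_single j]
      · refine Finset.sum_congr rfl fun h _ => ?_
        simp [f, Fin.succ_ne_zero]
      · intro j' _ hj'
        apply Finset.sum_eq_zero
        intro h _
        simp [f, hj']
      · intro hj; exact absurd (Finset.mem_univ _) hj
    have h3 : ∑ j', f (j', 0) = ψ (g0 ω 0 k) * ψ ((q : E) * M₀ j p * ω h') := by
      rw [Finset.sum_eq_single j]
      · simp [f]
      · intro j' _ hj'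
        simp [f, hj']
      · intro hj; exact absurd (Finset.mem_univ _) hj
    rw [h2, h3, NN_apply]
    rcases Fin.eq_zero_or_eq_succ k with hk | ⟨k', hk⟩
    · subst hk
      have h4 : ∑ h : Fin m, ψ (g0 ω h.succ 0) *
          lamM (finProdFinEquiv (j, h.succ)) (finProdFinEquiv (p, h')) =
          -∑ h : Fin m, ψ (ω h.succ) *
            lamM (finProdFinEquiv (j, h.succ)) (finProdFinEquiv (p, h')) := by
        rw [← Finset.sum_neg_distrib]
        refine Finset.sum_congr rfl fun h _ => ?_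
        have : g0 ω h.succ 0 = -ω h.succ := by
          unfold g0
          rw [if_neg (fun hh => Fin.succ_ne_zero _ hh.2.symm), if_pos rfl, zero_sub]
        rw [this, map_neg]
        ring
      have h5 : g0 ω 0 0 = -1 := by
        unfold g0
        rw [if_neg (fun hh => hh.1 rfl), if_pos rfl, zero_sub, hω0]
      have h6 := ph_lam ψ hc lam j p h'
      rw [Fin.sum_univ_succ, hω0, map_one, one_mul] at h6
      rw [h4, h5, if_pos rfl, map_neg, map_one]
      have h7 : lamM (finProdFinEquiv (j, 0)) (finProdFinEquiv (p, h')) +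
          ∑ h : Fin m, ψ (ω h.succ) * lamM (finProdFinEquiv (j, h.succ)) (finProdFinEquiv (p, h')) =
          (q : ℂ) * ψ (ω h') * ∑ i, ψ (M i j p) * lam i := h6
      have h8 : (e : ℂ) * ψ (M₀ j p) = ψ (M₀ j p) := by
        rcases Nat.le_one_iff_eq_zero_or_eq_one.mp he with h9 | h9
        · rw [hM₀ h9]; simp
        · rw [h9]; simp
      have h9 : lamM (finProdFinEquiv (j, 0)) (finProdFinEquiv (p, h')) -
          (-∑ h : Fin m, ψ (ω h.succ) * lamM (finProdFinEquiv (j, h.succ)) (finProdFinEquiv (p, h')) +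
            e * (-1 * ψ ((q : E) * M₀ j p * ω h'))) - (q : ℂ) * ψ (ω h') * N j p =
          (q : ℂ) * ψ (ω h') * (ψ (M₀ j p) + ∑ i, ψ (M i j p) * lam i - N j p) := by
        rw [map_mul, map_mul, map_natCast]
        linear_combination h7 + (q : ℂ) * ψ (ω h') * h8
      rw [h9, norm_mul, norm_mul, Complex.norm_natCast]
      have h10 : (q : ℝ) * ‖ψ (ω h')‖ ≤ q * gω :=
        mul_le_mul_of_nonneg_left (hgω ψ h') (Nat.cast_nonneg _)
      have h11 := hclose j p
      have h12 : (q : ℝ) * gω ≤ Real.exp (q * gω * Real.log H ^ κ') := by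
        have h13 := Real.add_one_le_exp (q * gω * Real.log H ^ κ')
        have h14 : (q : ℝ) * gω * 1 ≤ q * gω * Real.log H ^ κ' :=
          mul_le_mul_of_nonneg_left hLκ (by positivity)
        linarith
      calc (q : ℝ) * ‖ψ (ω h')‖ * ‖ψ (M₀ j p) + ∑ i, ψ (M i j p) * lam i - N j p‖ ≤
          Real.exp (q * gω * Real.log H ^ κ') *
            Real.exp (-((C * (m0 : ℝ) ^ κ' + q * gω) * Real.log H ^ κ')) :=
            mul_le_mul (h10.trans h12) h11 (norm_nonneg _) (Real.exp_pos _).le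
        _ = Real.exp (-(C * Real.log (H ^ m0) ^ κ')) := by
            rw [← Real.exp_add, scale hm1 hH]
            congr 1
            ring
    · subst hk
      have h4 : ∑ h : Fin m, ψ (g0 ω h.succ k'.succ) *
          lamM (finProdFinEquiv (j, h.succ)) (finProdFinEquiv (p, h')) =
          lamM (finProdFinEquiv (j, k'.succ)) (finProdFinEquiv (p, h')) := by
        rw [Finset.sum_eq_single k']
        · have : g0 ω k'.succ k'.succ = 1 := by
            unfold g0
            rw [if_pos ⟨Fin.succ_ne_zero _, rfl⟩, if_neg (Fin.succ_ne_zero _), sub_zero]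
          rw [this, map_one, one_mul]
        · intro h _ hh
          have : g0 ω h.succ k'.succ = 0 := by
            unfold g0
            rw [if_neg (fun h5 => hh (Fin.succ_injective _ h5.2).symm),
              if_neg (Fin.succ_ne_zero _), sub_zero]
          rw [this, map_zero, zero_mul]
        · intro hj; exact absurd (Finset.mem_univ _) hj
      have h5 : g0 ω 0 k'.succ = 0 := by
        unfold g0
        rw [if_neg (fun hh => hh.1 rfl), if_neg (Fin.succ_ne_zero _), sub_zero]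
      rw [h4, h5, if_neg (Fin.succ_ne_zero _), map_zero, zero_mul, mul_zero, add_zero, sub_self,
        sub_zero, norm_zero]
      exact (Real.exp_pos _).le
  obtain ⟨Af, Rm, W0, G0, q0, q1, q2, q3, q4⟩ := hmain (H ^ m0) hHm K φ (zr (Am c) z) lamM
    (fun i J => ι (gam ω dir i J)) β ων (NN ψ ω q N) hD (zr_ne hz0)
    (zr_ht hH1 hm0 hzH hzH') (zr_exp φ hexp)
    (fun J P => (hlamM J P).trans (mul_le_mul_of_nonneg_right (by linarith) (by linarith)))
    (fun i J => by
      have : IsIntegral ℤ (gam ω dir i J) := by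
        unfold gam g0
        split_ifs
        all_goals first
          | exact isIntegral_zero
          | exact isIntegral_one.sub (hωI _)
          | exact isIntegral_one.sub isIntegral_zero
          | exact isIntegral_zero.sub (hωI _)
          | exact isIntegral_zero.sub isIntegral_zero
      exact this.map (ι : E →+* K).toIntAlgHom)
    (fun τ' i J => hg (τ'.comp ι) (i, J))
    (fun i P => by
      by_cases hi : (dir i).2 = 0
      · simp only [β, if_pos hi]
        have : IsIntegral ℤ ((q : E) * M₀ (dir i).1 (finProdFinEquiv.symm P).1 *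
            ω (finProdFinEquiv.symm P).2) := (hqM₀ _ _).mul (hωI _)
        exact this.map (ι : E →+* K).toIntAlgHom
      · simp only [β, if_neg hi]
        exact isIntegral_zero)
    hβB
    (fun i hi P => by
      have hi' : (dir i).2 ≠ 0 := fun h0 => hi (by simp [h0])
      simp only [β, if_neg hi'])
    (fun i hi P => by
      have hi' : (dir i).2 = 0 := by simpa using hi
      simp only [ων, if_pos hi'])
    (fun i P => by
      by_cases hi : (dir i).2 = 0
      · simp only [ων, if_pos hi]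
        have := hβB φ i P
        nlinarith
      · simp only [ων, if_neg hi]
        exact (hlamM _ P).trans (mul_le_mul_of_nonneg_right (by linarith) (by linarith)))
    ((NN_rank ψ q N).trans hN) happ
  by_contra hcon
  push Not at hcon
  -- the zeros
  have hzero : ∀ m' ∈ Rm, ∀ s ∈ G0, ∀ i, ∑ J, ∑ P, m' J * s P * Am c i J P = 0 := by
    intro m' hm' s hs
    by_contra hne
    push Not at hne
    obtain ⟨i, hi⟩ := hne
    refine hcon (fun i => ∑ J, ∑ P, m' J * s P * Am c i J P) (fun h0 => hi (congrFun h0 i)) ?_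
    rw [← ((q3 s).mp hs).2 m' hm']
    exact (rel_zr (Am c) z hz0 m' s).symm
  have hAf : ∀ b ∈ Af, ∀ i, (dir i).2 ≠ 0 → b i = 0 := fun b hb i hi =>
    q0 b hb i (by simpa using hi)
  let U : Submodule ℂ (Fin d → ℂ) := spA ψ ω dir Rm Af
  let V : Submodule ℂ (Fin l → ℂ) :=
    Submodule.span ℂ ((fun s => ph ψ ω l (vc s)) '' (G0 : Set (Fin (l * (m + 1)) → ℤ)))
  have hW := dim_W0 ψ ω dir hω0 hd1 Rm Af W0 hAf (fun c' hc' => ((q2 c').mp hc').1)
    (fun c' hc' m' hm' => by
      have := ((q2 c').mp hc').2 m' hm'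
      simpa only [hφ] using this)
  have hU1 : (m + 1) * finrank ℂ U ≤ finrank ℤ Rm :=
    le_trans (Nat.mul_le_mul_left _ (Submodule.finrank_mono (spA_le ψ ω dir Rm Af)))
      (sp_rank ψ hω hm Rm)
  have hG : finrank ℤ G0 ≤ (m + 1) * finrank ℂ V :=
    rank_le_mul ψ hω hm G0 V fun s hs => Submodule.subset_span ⟨s, hs, rfl⟩
  have hUA : e * finrank ℂ U ≤ finrank ℂ Af := by
    rcases Nat.le_one_iff_eq_zero_or_eq_one.mp he with h9 | h9
    · rw [h9, zero_mul]; exact Nat.zero_le _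
    · rw [h9, one_mul]; exact dim_Af ψ ω dir hω0 (hd0 h9) Rm Af
  have hUV : finrank ℂ U * l + finrank ℂ V * d ≤ d * l := by
    have hext : ∀ (T : Fin d → Fin l → E) (u : Fin d → ℂ),
        (∀ s ∈ G0, ∑ j, ∑ p, u j * ψ (T j p) * ph ψ ω l (vc s) p = 0) →
        ∀ v ∈ V, ∑ j, ∑ p, u j * ψ (T j p) * v p = 0 := by
      intro T u hT v hv
      let f : (Fin l → ℂ) →ₗ[ℂ] ℂ :=
        { toFun := fun v => ∑ j, ∑ p, u j * ψ (T j p) * v p
          map_add' := fun x y => by simp [mul_add, Finset.sum_add_distrib]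
          map_smul' := fun b x => by
            simp only [Pi.smul_apply, smul_eq_mul, RingHom.id_apply, Finset.mul_sum]
            exact Finset.sum_congr rfl fun _ _ => Finset.sum_congr rfl fun _ _ => by ring }
      have hV : V ≤ LinearMap.ker f := by
        rw [Submodule.span_le]
        rintro _ ⟨s, hs, rfl⟩
        exact hT s hs
      exact hV hv
    apply hbal U V
    · intro u hu
      apply hext M₀ u
      intro s hs
      rcases Nat.le_one_iff_eq_zero_or_eq_one.mp he with h9 | h9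
      · rw [hM₀ h9]
        simp
      · have h1 := ((q3 s).mp hs).1 (GT ψ ω dir (phT ψ ω d u)) hu.2
        let f : Fin d × Fin (m + 1) → ℂ := fun t => if t.2 = 0 then
          -u t.1 * ∑ P, ψ ((q : E) * M₀ t.1 (finProdFinEquiv.symm P).1 *
            ω (finProdFinEquiv.symm P).2) * (s P : ℂ) else 0
        have h2 : ∑ i, GT ψ ω dir (phT ψ ω d u) i * ∑ P, φ (β i P) * (s P : ℂ) =
            ∑ i, f (dir i) := by
          refine Finset.sum_congr rfl fun i _ => ?_
          rw [GT_phT ψ ω dir hω0]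
          by_cases hi : (dir i).2 = 0
          · simp only [f, β, if_pos hi, hφ]
          · simp only [f, if_neg hi, zero_mul]
        rw [h2, hdS f] at h1
        have h3 : ∑ j, ∑ h : Fin m, f (j, h.succ) = 0 := by
          apply Finset.sum_eq_zero
          intro j _
          apply Finset.sum_eq_zero
          intro h _
          simp [f, Fin.succ_ne_zero]
        rw [h3, h9, zero_add, Nat.cast_one, one_mul] at h1
        have h4 : ∑ j, f (j, 0) = -(q : ℂ) * ∑ j, ∑ p, u j * ψ (M₀ j p) * ph ψ ω l (vc s) p := by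
          rw [Finset.mul_sum]
          refine Finset.sum_congr rfl fun j _ => ?_
          simp only [f, if_true]
          rw [sum_dbl, Finset.mul_sum, Finset.mul_sum]
          refine Finset.sum_congr rfl fun p _ => ?_
          rw [ph_apply, Finset.mul_sum, Finset.mul_sum, Finset.mul_sum]
          refine Finset.sum_congr rfl fun h' _ => ?_
          rw [Equiv.symm_apply_apply, map_mul, map_mul, map_natCast]
          unfold vc
          ring
        rw [h4] at h1
        have hq' : -(q : ℂ) ≠ 0 := neg_ne_zero.mpr (by exact_mod_cast hq.ne')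
        exact (mul_eq_zero.mp h1).resolve_left hq'
    · intro i u hu
      apply hext (M i) u
      intro s hs
      exact block ψ hq hc Rm s i (fun m' hm' => hzero m' hm' s hs i) u (spA_le ψ ω dir Rm Af hu)
  -- the final computation
  obtain ⟨u, hu⟩ : ∃ u, u = finrank ℂ U := ⟨_, rfl⟩
  obtain ⟨v, hv⟩ : ∃ v, v = finrank ℂ V := ⟨_, rfl⟩
  obtain ⟨αf, hαf⟩ : ∃ x, x = finrank ℂ Af := ⟨_, rfl⟩
  obtain ⟨ρ, hρ⟩ : ∃ x, x = finrank ℤ Rm := ⟨_, rfl⟩
  obtain ⟨W, hWd⟩ : ∃ x, x = finrank ℂ W0 := ⟨_, rfl⟩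
  obtain ⟨γ0, hγ0⟩ : ∃ x, x = finrank ℤ G0 := ⟨_, rfl⟩
  change finrank ℂ Af + finrank ℤ Rm + finrank ℂ W0 ≤ w + finrank ℂ U at hW
  rw [← hαf, ← hρ, ← hWd, ← hu] at hW
  rw [← hu, ← hρ] at hU1
  rw [← hγ0, ← hv] at hG
  rw [← hu, ← hαf] at hUA
  rw [← hu, ← hv] at hUV
  rw [← hWd, ← hγ0, ← hαf, ← hρ] at q4
  have hnz : ¬ (αf = 0 ∧ ρ = 0) := by
    rintro ⟨h1, h2⟩
    refine q1 ⟨?_, Pool.Agent.L0h39.QA.eq_bot_of_rank Rm (by omega)⟩
    apply Submodule.finrank_eq_zero.mp
    omega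
  -- the bound for `v`
  have hvl : v ≤ l := by
    have : v * d ≤ l * d := by
      have : d * l = l * d := mul_comm _ _
      have h0 : 0 ≤ u * l := Nat.zero_le _
      omega
    exact Nat.le_of_mul_le_mul_right this hd
  obtain ⟨f, hf⟩ : ∃ f, l = v + f := Nat.exists_eq_add_of_le hvl
  have hfu : u * l ≤ f * d := by
    have : d * l = v * d + f * d := by rw [hf]; ring
    omega
  have hG' : (m + 1) * f ≤ l * (m + 1) - γ0 := by
    have : l * (m + 1) = (m + 1) * v + (m + 1) * f := by rw [hf]; ring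
    omega
  have hW' : αf + ρ ≤ (w - W) + u := by omega
  obtain ⟨X, hX⟩ : ∃ X, w - W = X := ⟨_, rfl⟩
  rw [hX] at hW' q4
  have q5 : X * (μ + σ + a - 1) + (m + 1) * f * σ ≤ αf * (μ + σ) + ρ * μ := by
    have : (m + 1) * f * σ ≤ (l * (m + 1) - γ0) * σ := Nat.mul_le_mul_right _ hG'
    omega
  -- in terms of `τ`
  obtain ⟨a', ha'⟩ : ∃ a', a = a' + 2 := ⟨a - 2, by omega⟩
  have eτ : μ + σ + a - 1 = μ + σ + a' + 1 := by omega
  have eσ : σ + a - 1 = σ + a' + 1 := by omega
  have ea : a - 1 = a' + 1 := by omega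
  rw [eτ] at q5
  rw [eσ, ea] at hP2
  have k1 : (αf + ρ) * (μ + σ + a' + 1) ≤ (X + u) * (μ + σ + a' + 1) :=
    Nat.mul_le_mul_right _ hW'
  have key : αf * (a' + 1) + ρ * (σ + a' + 1) + (m + 1) * f * σ ≤ u * (μ + σ + a' + 1) := by
    nlinarith
  rcases Nat.eq_zero_or_pos u with hu0 | hu0
  · rw [hu0, zero_mul] at key
    apply hnz
    have k2 : αf * (a' + 1) = 0 := by omega
    have k3 : ρ * (σ + a' + 1) = 0 := by omega
    constructor
    · rcases Nat.mul_eq_zero.mp k2 with h1 | h1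
      · exact h1
      · omega
    · rcases Nat.mul_eq_zero.mp k3 with h1 | h1
      · exact h1
      · omega
  · have k2 : e * u * (a' + 1) ≤ αf * (a' + 1) := Nat.mul_le_mul_right _ hUA
    have k3 : (m + 1) * u * (σ + a' + 1) ≤ ρ * (σ + a' + 1) := Nat.mul_le_mul_right _ hU1
    have k4 : (m + 1) * (u * l) * σ ≤ (m + 1) * (f * d) * σ :=
      Nat.mul_le_mul_right _ (Nat.mul_le_mul_left _ hfu)
    have k5 : d * (e * u * (a' + 1) + (m + 1) * u * (σ + a' + 1)) + (m + 1) * (f * d) * σ ≤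
        d * (u * (μ + σ + a' + 1)) := by
      have : d * (αf * (a' + 1) + ρ * (σ + a' + 1) + (m + 1) * f * σ) ≤
          d * (u * (μ + σ + a' + 1)) := Nat.mul_le_mul_left _ key
      have e1 : d * (αf * (a' + 1) + ρ * (σ + a' + 1) + (m + 1) * f * σ) =
          d * (αf * (a' + 1)) + d * (ρ * (σ + a' + 1)) + (m + 1) * (f * d) * σ := by ring
      have k6 : d * (e * u * (a' + 1)) ≤ d * (αf * (a' + 1)) := Nat.mul_le_mul_left _ k2
      have k7 : d * ((m + 1) * u * (σ + a' + 1)) ≤ d * (ρ * (σ + a' + 1)) :=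
        Nat.mul_le_mul_left _ k3
      rw [Nat.mul_add]
      omega
    have k6 : u * (e * (d * (a' + 1)) + d * m * (σ + a' + 1) + l * (m + 1) * σ) ≤ u * (d * μ) := by
      nlinarith
    have k7 := Nat.le_of_mul_le_mul_left k6 hu0
    omega

end Pool.Agent.L0h53.RA
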