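import Mathlib
import Pool.Agent.L0h53.RA.Main

set_option autoImplicit false

/-! Matrices of linear forms in logarithms with coefficients in a number field: the final forms. -/

namespace Pool.Agent.L0h53.RA

open Finset Module Pool.Agent.L0h53.RK

/-- There is no block of zeros which is larger than the average: the family of matrices is
balanced. -/
def Bal {E : Type} [Field E] (ψ : E →+* ℂ) {n d l : ℕ} (M₀ : Fin d → Fin l → E)
    (M : Fin n → Fin d → Fin l → E) : Prop :=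
  ∀ (U : Submodule ℂ (Fin d → ℂ)) (V : Submodule ℂ (Fin l → ℂ)),
    (∀ u ∈ U, ∀ v ∈ V, ∑ j, ∑ p, u j * ψ (M₀ j p) * v p = 0) →
    (∀ i, ∀ u ∈ U, ∀ v ∈ V, ∑ j, ∑ p, u j * ψ (M i j p) * v p = 0) →
    finrank ℂ U * l + finrank ℂ V * d ≤ d * l

/-- the conclusion -/
def Conc {E : Type} [Field E] [NumberField E] (ψ : E →ₐ[ℚ] ℂ) {n d l : ℕ} (M₀ : Fin d → Fin l → E)
    (M : Fin n → Fin d → Fin l → E) (r D0 : ℕ) (c0 κ' : ℝ) : Prop :=
  ∃ C : ℝ, 0 < C ∧ ∀ H : ℝ, 3 ≤ H →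
    ∀ (K : Type) [Field K] [NumberField K] (φ : K →ₐ[ℚ] ℂ) (z : Fin n → K)
      (lam : Fin n → ℂ) (N : Matrix (Fin d) (Fin l) ℂ),
      finrank ℚ K ≤ D0 → (∀ i, z i ≠ 0) → (∀ i, Ht H (z i)) → (∀ i, Ht H (z i)⁻¹) →
      (∀ i, Complex.exp (lam i) = φ (z i)) → (∀ i, ‖lam i‖ ≤ c0 * Real.log H) →
      N.rank ≤ r →
      (∀ j p, ‖ψ (M₀ j p) + ∑ i, ψ (M i j p) * lam i - N j p‖ ≤
        Real.exp (-(C * Real.log H ^ κ'))) →
      ∃ t : Fin n → ℤ, t ≠ 0 ∧ ∏ i, z i ^ t i = 1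

/-- the compositum -/
theorem exists_comp {E K : Type} [Field E] [NumberField E] [Field K] [NumberField K]
    (ψ : E →ₐ[ℚ] ℂ) (φ : K →ₐ[ℚ] ℂ) : ∃ (F : Type) (_ : Field F) (_ : NumberField F)
      (ι : E →ₐ[ℚ] F) (j : K →ₐ[ℚ] F) (φF : F →ₐ[ℚ] ℂ), (∀ x, φF (ι x) = ψ x) ∧
        (∀ x, φF (j x) = φ x) ∧ finrank ℚ F ≤ finrank ℚ K * finrank ℚ E := by
  let A := φ.fieldRange
  let B := ψ.fieldRange
  let eA : K ≃ₐ[ℚ] A := AlgEquiv.ofInjectiveField φ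
  let eB : E ≃ₐ[ℚ] B := AlgEquiv.ofInjectiveField ψ
  have hAf : FiniteDimensional ℚ A := LinearEquiv.finiteDimensional eA.toLinearEquiv
  have hBf : FiniteDimensional ℚ B := LinearEquiv.finiteDimensional eB.toLinearEquiv
  have hABf : FiniteDimensional ℚ (A ⊔ B : IntermediateField ℚ ℂ) :=
    IntermediateField.finiteDimensional_sup A B
  refine ⟨(A ⊔ B : IntermediateField ℚ ℂ), inferInstance, ⟨⟩,
    (IntermediateField.inclusion le_sup_right).comp eB.toAlgHom,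
    (IntermediateField.inclusion le_sup_left).comp eA.toAlgHom, (A ⊔ B).val, ?_, ?_, ?_⟩
  · intro x; rfl
  · intro x; rfl
  · refine (IntermediateField.finrank_sup_le A B).trans (le_of_eq ?_)
    rw [← LinearEquiv.finrank_eq eA.toLinearEquiv, ← LinearEquiv.finrank_eq eB.toLinearEquiv]

theorem ht_map {K F : Type} [Field K] [NumberField K] [Field F] [NumberField F] (j : K →ₐ[ℚ] F)
    {H : ℝ} {a : K} (h : Ht H a) : Ht H (j a) := by
  obtain ⟨⟨q, h1, h2, h3⟩, h4⟩ := h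
  refine ⟨⟨q, h1, h2, ?_⟩, fun τ => h4 (τ.comp j)⟩
  have := h3.map (j : K →+* F).toIntAlgHom
  simpa using this

/-- passage to fields which do not contain the field of the coefficients -/
theorem conc_of {E : Type} [Field E] [NumberField E] (ψ : E →ₐ[ℚ] ℂ) {n d l : ℕ}
    (M₀ : Fin d → Fin l → E) (M : Fin n → Fin d → Fin l → E) (r D0 : ℕ) (c0 κ' : ℝ)
    (h : ∃ C : ℝ, 0 < C ∧ ∀ H : ℝ, 3 ≤ H →
    ∀ (K : Type) [Field K] [NumberField K] (ι : E →ₐ[ℚ] K) (φ : K →ₐ[ℚ] ℂ) (z : Fin n → K)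
      (lam : Fin n → ℂ) (N : Matrix (Fin d) (Fin l) ℂ), (∀ x, φ (ι x) = ψ x) →
      finrank ℚ K ≤ D0 * finrank ℚ E → (∀ i, z i ≠ 0) → (∀ i, Ht H (z i)) → (∀ i, Ht H (z i)⁻¹) →
      (∀ i, Complex.exp (lam i) = φ (z i)) → (∀ i, ‖lam i‖ ≤ c0 * Real.log H) →
      N.rank ≤ r →
      (∀ j p, ‖ψ (M₀ j p) + ∑ i, ψ (M i j p) * lam i - N j p‖ ≤
        Real.exp (-(C * Real.log H ^ κ'))) →
      ∃ t : Fin n → ℤ, t ≠ 0 ∧ ∏ i, z i ^ t i = 1) : Conc ψ M₀ M r D0 c0 κ' := by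
  obtain ⟨C, hC, hmain⟩ := h
  refine ⟨C, hC, fun H hH K _ _ φ z lam N hD hz0 hzH hzH' hexp hlam hN hclose => ?_⟩
  obtain ⟨F, _, _, ι, j, φF, hι, hj, hF⟩ := exists_comp ψ φ
  obtain ⟨t, ht, hrel⟩ := hmain H hH F ι φF (fun i => j (z i)) lam N hι
    (hF.trans (Nat.mul_le_mul_right _ hD)) (fun i => (map_ne_zero j).mpr (hz0 i))
    (fun i => ht_map j (hzH i)) (fun i => by
      rw [← map_inv₀]
      exact ht_map j (hzH' i)) (fun i => by rw [hj]; exact hexp i) hlam hN hclose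
  refine ⟨t, ht, j.injective ?_⟩
  rw [map_one, ← hrel, map_prod]
  exact Finset.prod_congr rfl fun i _ => map_zpow₀ j (z i) (t i)

/-- **Balanced matrices of homogeneous linear forms in logarithms.** -/
theorem bal_pure {E : Type} [Field E] [NumberField E] (ψ : E →ₐ[ℚ] ℂ) (n d l r D0 : ℕ)
    (h : r * (d + l) < d * l) (M : Fin n → Fin d → Fin l → E)
    (hbal : Bal (ψ : E →+* ℂ) (fun _ _ => 0) M) (κ' : ℝ)
    (hκ : (finrank ℚ E * (d * l) : ℝ) / (d * l - r * (d + l)) < κ') (c0 : ℝ) (hc0 : 0 ≤ c0) :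
    Conc ψ (fun _ _ => 0) M r D0 c0 κ' := by
  obtain ⟨m, ω, hm, hω, hω0, hωI⟩ := exists_basis E
  have hd : 1 ≤ d := by
    rcases Nat.eq_zero_or_pos d with h0 | h0
    · subst h0; simp at h
    · exact h0
  apply conc_of
  refine bal_core ψ n d l r m 0 (d * m) _ hd (by omega) h hω hm hω0 hωI (fun _ _ => 0) M
    (fun _ => rfl) hbal (fun i => ((finProdFinEquiv.symm i).1, (finProdFinEquiv.symm i).2.succ))
    ?_ ?_ (fun h0 => absurd h0 (by omega)) ?_ rfl κ' ?_ c0 hc0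
  · intro f
    rw [sum_dbl]
    simp
  · intro j h'
    refine ⟨finProdFinEquiv (j, h'), ?_⟩
    rw [Equiv.symm_apply_apply]
  · rw [zero_mul, Finset.card_eq_zero, Finset.filter_eq_empty_iff]
    intro i _
    exact Fin.succ_ne_zero _
  · rw [hm] at hκ
    push_cast at hκ ⊢
    rwa [add_zero]

/-- **Balanced matrices of affine linear forms in logarithms.** -/
theorem bal_strong {E : Type} [Field E] [NumberField E] (ψ : E →ₐ[ℚ] ℂ) (n d l r D0 : ℕ)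
    (h : r * (d + l) < d * l) (M₀ : Fin d → Fin l → E) (M : Fin n → Fin d → Fin l → E)
    (hbal : Bal (ψ : E →+* ℂ) M₀ M) (κ' : ℝ)
    (hκ : ((finrank ℚ E + 1) * (d * l) : ℝ) / (d * l - r * (d + l)) < κ') (c0 : ℝ)
    (hc0 : 0 ≤ c0) :
    Conc ψ M₀ M r D0 c0 κ' := by
  obtain ⟨m, ω, hm, hω, hω0, hωI⟩ := exists_basis E
  have hd : 1 ≤ d := by
    rcases Nat.eq_zero_or_pos d with h0 | h0
    · subst h0; simp at h
    · exact h0
  apply conc_of
  refine bal_core ψ n d l r m 1 (d * (m + 1)) _ hd le_rfl h hω hm hω0 hωI M₀ M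
    (fun h0 => absurd h0 (by omega)) hbal (fun i => finProdFinEquiv.symm i)
    ?_ ?_ (fun _ j => ⟨finProdFinEquiv (j, 0), Equiv.symm_apply_apply _ _⟩) ?_ rfl κ' ?_ c0 hc0
  · intro f
    rw [sum_dbl]
    simp only [Equiv.symm_apply_apply, Fin.sum_univ_succ, Finset.sum_add_distrib, Nat.cast_one,
      one_mul]
    rw [add_comm]
  · intro j h'
    exact ⟨finProdFinEquiv (j, h'.succ), Equiv.symm_apply_apply _ _⟩
  · rw [Finset.card_filter, sum_dbl]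
    simp only [Equiv.symm_apply_apply]
    simp
  · rw [hm] at hκ
    push_cast at hκ ⊢
    exact hκ

end Pool.Agent.L0h53.RA
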