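import Mathlib
import Pool.Agent.L0h53.RA.Fin

set_option autoImplicit false

/-! Half of the structural rank, for linear forms with coefficients in a number field. -/

namespace Pool.Agent.L0h53.RA

open Finset Module Pool.Agent.L0h53.RK

/-- a block of zeros of a nonsingular matrix -/
theorem block_leC {d : ℕ} (B : Matrix (Fin d) (Fin d) ℂ) (hB : B.det ≠ 0)
    (U W : Submodule ℂ (Fin d → ℂ))
    (h : ∀ u ∈ U, ∀ c ∈ W, ∑ j, ∑ p, u j * B j p * c p = 0) :
    finrank ℂ U + finrank ℂ W ≤ d := by
  have hBu : IsUnit B.det := isUnit_iff_ne_zero.mpr hB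
  have hinj : Function.Injective B.mulVecLin := by
    intro v v' hv
    have := congrArg (fun t => B⁻¹.mulVec t) hv
    simpa [Matrix.mulVecLin_apply, Matrix.mulVec_mulVec, Matrix.nonsing_inv_mul B hBu] using this
  have h1 : finrank ℂ (W.map B.mulVecLin) = finrank ℂ W :=
    (LinearEquiv.finrank_eq (Submodule.equivMapOfInjective B.mulVecLin hinj W)).symm
  rw [← h1]
  apply pair_le
  rintro u hu _ ⟨c, hc, rfl⟩
  rw [← h u hu c hc]
  refine Finset.sum_congr rfl fun j _ => ?_
  simp only [Matrix.mulVecLin_apply, Matrix.mulVec, dotProduct, Finset.mul_sum]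
  exact Finset.sum_congr rfl fun p _ => by ring

theorem bal_square {E : Type} [Field E] [NumberField E] (ψ : E →ₐ[ℚ] ℂ) {n s : ℕ}
    (M₀ : Fin s → Fin s → E) (M : Fin n → Fin s → Fin s → E)
    (h : Matrix.det (Matrix.of fun j p : Fin s => (MvPolynomial.C (M₀ j p) +
      ∑ i, MvPolynomial.C (M i j p) * MvPolynomial.X i : MvPolynomial (Fin n) E)) ≠ 0) :
    Bal (ψ : E →+* ℂ) M₀ M := by
  obtain ⟨x, hx⟩ : ∃ x : Fin n → E,
      (Matrix.of (fun j p : Fin s => M₀ j p + ∑ i, M i j p * x i)).det ≠ 0 := by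
    by_contra hcon
    push Not at hcon
    apply h
    apply MvPolynomial.funext
    intro x
    rw [map_zero, ← RingHom.coe_coe, RingHom.map_det]
    rw [← hcon x]
    congr 1
    ext j p
    simp [mul_comm]
  intro U V h0 h1
  have hle := block_leC ((Matrix.of (fun j p : Fin s => M₀ j p + ∑ i, M i j p * x i)).map ψ)
    (by
      have := RingHom.map_det (ψ : E →+* ℂ)
        (Matrix.of (fun j p : Fin s => M₀ j p + ∑ i, M i j p * x i))
      have e : ((Matrix.of (fun j p : Fin s => M₀ j p + ∑ i, M i j p * x i)).map ψ).det =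
          ψ ((Matrix.of (fun j p : Fin s => M₀ j p + ∑ i, M i j p * x i)).det) := this.symm
      rw [e]
      exact (map_ne_zero ψ).mpr hx) U V (by
      intro u hu c hc
      have e : ∑ j, ∑ p, u j * ((Matrix.of (fun j p : Fin s => M₀ j p + ∑ i, M i j p * x i)).map ψ)
          j p * c p = ∑ j, ∑ p, u j * ψ (M₀ j p) * c p +
            ∑ i, ψ (x i) * ∑ j, ∑ p, u j * ψ (M i j p) * c p := by
        have h2 : ∑ i, ψ (x i) * ∑ j, ∑ p, u j * ψ (M i j p) * c p =
            ∑ j, ∑ p, ∑ i, ψ (x i) * (u j * ψ (M i j p) * c p) := by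
          simp only [Finset.mul_sum]
          rw [Finset.sum_comm]
          refine Finset.sum_congr rfl fun j _ => ?_
          rw [Finset.sum_comm]
        rw [h2, ← Finset.sum_add_distrib]
        refine Finset.sum_congr rfl fun j _ => ?_
        rw [← Finset.sum_add_distrib]
        refine Finset.sum_congr rfl fun p _ => ?_
        rw [Matrix.map_apply, Matrix.of_apply, map_add, map_sum, mul_add, add_mul, Finset.mul_sum,
          Finset.sum_mul]
        congr 1
        refine Finset.sum_congr rfl fun i _ => ?_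
        rw [map_mul]
        ring
      rw [e]
      have h3 := h0 u hu c hc
      have h4 : ∀ i, ∑ j, ∑ p, u j * ψ (M i j p) * c p = 0 := fun i => h1 i u hu c hc
      have h3' : ∑ j, ∑ p, u j * ψ (M₀ j p) * c p = 0 := h3
      rw [h3']
      simp only [h4, mul_zero, Finset.sum_const_zero, add_zero])
  have : (finrank ℂ U + finrank ℂ V) * s ≤ s * s := Nat.mul_le_mul_right _ hle
  rw [Nat.add_mul] at this
  exact this

end Pool.Agent.L0h53.RA
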